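import Mathlib

/-! A trace function on a finite-dimensional algebra whose values on powers are power sums comes from a
representation. -/

set_option autoImplicit false
set_option linter.all false

namespace Pool.Agent.H498.BG

open Polynomial

variable {k : Type*} [Field k]

/-- values of polynomials at the `β i` from the power sums -/
theorem sum_eval {n : ℕ} (β : Fin n → k) (N : ℕ) (c : k) (h : ∀ j, N ≤ j → ∑ i, β i ^ j = c) (f : k[X]) :
    ∑ i, β i ^ N * f.eval (β i) = c * f.eval 1 := by
  have h1 : ∀ b : k, b ^ N * f.eval b = ∑ j ∈ Finset.range (f.natDegree + 1), f.coeff j * b ^ (N + j) := by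
    intro b
    rw [Polynomial.eval_eq_sum_range, Finset.mul_sum]
    exact Finset.sum_congr rfl fun j _ => by rw [pow_add]; ring
  simp only [h1]
  rw [Finset.sum_comm, Polynomial.eval_eq_sum_range, Finset.mul_sum]
  refine Finset.sum_congr rfl fun j _ => ?_
  rw [← Finset.mul_sum, h _ (Nat.le_add_right _ _), one_pow, mul_one, mul_comm]

/-- nilpotent elements have trace zero -/
theorem sum_zero [CharZero k] {n : ℕ} (β : Fin n → k) (N : ℕ) (h : ∀ j, N ≤ j → ∑ i, β i ^ j = 0) :
    ∀ i, β i = 0 := by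
  classical
  intro i₀
  by_contra hne
  set s : Finset k := Finset.univ.image β with hs
  set f : k[X] := ∏ b ∈ s.erase (β i₀), (X - C b) with hf
  have h1 := sum_eval β N 0 h f
  rw [zero_mul] at h1
  have h2 : ∀ i, β i ^ N * f.eval (β i) = if β i = β i₀ then β i₀ ^ N * f.eval (β i₀) else 0 := by
    intro i
    split_ifs with hi
    · rw [hi]
    · have : f.eval (β i) = 0 := by
        rw [hf, Polynomial.eval_prod]
        exact Finset.prod_eq_zero (Finset.mem_erase.2 ⟨hi, Finset.mem_image_of_mem _ (Finset.mem_univ i)⟩)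
          (by simp)
      rw [this, mul_zero]
  rw [Finset.sum_congr rfl fun i _ => h2 i] at h1
  rw [← Finset.sum_filter, Finset.sum_const, nsmul_eq_mul] at h1
  rcases mul_eq_zero.1 h1 with h3 | h3
  · rw [Nat.cast_eq_zero, Finset.card_eq_zero] at h3
    exact absurd (Finset.mem_filter.2 ⟨Finset.mem_univ i₀, rfl⟩ : i₀ ∈ Finset.univ.filter fun i => β i = β i₀)
      (by rw [h3]; exact Finset.notMem_empty _)
  · rcases mul_eq_zero.1 h3 with h4 | h4
    · exact hne (by by_contra h5; exact pow_ne_zero N h5 h4)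
    · rw [hf, Polynomial.eval_prod, Finset.prod_eq_zero_iff] at h4
      obtain ⟨b, hb, hb0⟩ := h4
      rw [Polynomial.eval_sub, Polynomial.eval_X, Polynomial.eval_C, sub_eq_zero] at hb0
      exact (Finset.mem_erase.1 hb).1 hb0.symm

/-- idempotents have natural numbers as traces -/
theorem sum_const {n : ℕ} (β : Fin n → k) (c : k) (h : ∀ j, 1 ≤ j → ∑ i, β i ^ j = c) :
    ∃ m : ℕ, c = m := by
  classical
  set s : Finset k := Finset.univ.image β with hs
  set f : k[X] := ∏ b ∈ s.erase 1, (X - C b) with hf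
  have h1 := sum_eval β 1 c h f
  have h2 : ∀ i, β i ^ 1 * f.eval (β i) = if β i = 1 then f.eval 1 else 0 := by
    intro i
    split_ifs with hi
    · rw [hi, one_pow, one_mul]
    · have : f.eval (β i) = 0 := by
        rw [hf, Polynomial.eval_prod]
        exact Finset.prod_eq_zero (Finset.mem_erase.2 ⟨hi, Finset.mem_image_of_mem _ (Finset.mem_univ i)⟩)
          (by simp)
      rw [this, mul_zero]
  simp only [h2] at h1
  rw [← Finset.sum_filter, Finset.sum_const, nsmul_eq_mul] at h1
  have hf1 : f.eval 1 ≠ 0 := by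
    rw [hf, Polynomial.eval_prod, Finset.prod_ne_zero_iff]
    intro b hb
    rw [Polynomial.eval_sub, Polynomial.eval_X, Polynomial.eval_C, sub_ne_zero]
    exact (Finset.mem_erase.1 hb).1.symm
  exact ⟨_, (mul_right_cancel₀ hf1 h1).symm⟩

variable [IsAlgClosed k] [CharZero k] {A : Type*} [Ring A] [Algebra k A] [FiniteDimensional k A]

/-- the algebra is semisimple -/
theorem semisimple_of_trace {n : ℕ} (t : A →ₗ[k] k)
    (hnd : ∀ a, (∀ b, t (a * b) = 0) → a = 0)
    (hp : ∀ a, ∃ β : Fin n → k, ∀ j, 0 < j → t (a ^ j) = ∑ i, β i ^ j) : IsSemisimpleRing A := by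
  haveI : IsArtinianRing A := IsArtinianRing.of_finite k A
  rw [IsArtinianRing.isSemisimpleRing_iff_jacobson, eq_bot_iff]
  intro x hx
  rw [Ideal.mem_bot]
  refine hnd x fun b => ?_
  have hxb : x * b ∈ Ring.jacobson A := Ideal.mul_mem_right _ _ hx
  have hnil : IsNilpotent (x * b) := by
    have h1 : IsNilpotent (Ring.jacobson A) := by
      have := IsArtinianRing.isNilpotent_jacobson_bot (R := A)
      rwa [Ideal.jacobson_bot] at this
    obtain ⟨N, hN⟩ := h1
    refine ⟨N, ?_⟩
    have h2 := Ideal.pow_mem_pow hxb N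
    rw [hN] at h2
    exact h2
  obtain ⟨β, hβ⟩ := hp (x * b)
  obtain ⟨N, hN⟩ := hnil
  have h0 := sum_zero β (N + 1) (fun j hj => by
    rw [← hβ j (by omega)]
    have : (x * b) ^ j = 0 := pow_eq_zero_of_le (by omega) hN
    rw [this, map_zero])
  have h1 := hβ 1 one_pos
  rw [pow_one] at h1
  rw [h1]
  exact Finset.sum_eq_zero fun i _ => by rw [h0 i, pow_one]

/-- trace functions on a matrix algebra -/
theorem trace_unique {d : ℕ} [NeZero d] (s : Matrix (Fin d) (Fin d) k →ₗ[k] k)
    (hs : ∀ a b, s (a * b) = s (b * a)) (M : Matrix (Fin d) (Fin d) k) :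
    s M = s (Matrix.single 0 0 1) * M.trace := by
  have h1 : ∀ i j : Fin d, s (Matrix.single i j 1) = if i = j then s (Matrix.single 0 0 1) else 0 := by
    intro i j
    have e : (Matrix.single i j (1 : k)) = Matrix.single i 0 1 * Matrix.single 0 j 1 := by
      rw [Matrix.single_mul_single_same, mul_one]
    rw [e, hs]
    split_ifs with hij
    · subst hij
      rw [Matrix.single_mul_single_same, mul_one]
    · rw [Matrix.single_mul_single_of_ne (c := (1 : k)) (i := 0) (h := Ne.symm hij), map_zero]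
  conv_lhs => rw [Matrix.matrix_eq_sum_single M]
  rw [map_sum]
  simp only [map_sum]
  have h2 : ∀ i j : Fin d, s (Matrix.single i j (M i j)) = M i j * (if i = j then s (Matrix.single 0 0 1) else 0) := by
    intro i j
    rw [← h1, ← smul_eq_mul, ← map_smul, Matrix.smul_single, smul_eq_mul, mul_one]
  simp only [h2, mul_ite, mul_zero, Finset.sum_ite_eq, Finset.mem_univ, if_true]
  rw [← Finset.sum_mul, mul_comm]
  rfl

/-- **Reconstruction of a representation of an algebra from its trace.** -/
theorem alg_recon {n : ℕ} (t : A →ₗ[k] k) (hc : ∀ a b, t (a * b) = t (b * a))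
    (hnd : ∀ a, (∀ b, t (a * b) = 0) → a = 0) (h1 : t 1 = n)
    (hp : ∀ a, ∃ β : Fin n → k, ∀ j, 0 < j → t (a ^ j) = ∑ i, β i ^ j) :
    ∃ φ : A →+* Matrix (Fin n) (Fin n) k, (∀ (c : k) a, φ (c • a) = c • φ a) ∧ ∀ a, (φ a).trace = t a := by
  classical
  haveI := semisimple_of_trace t hnd hp
  obtain ⟨m, d, hd, ⟨e⟩⟩ := IsSemisimpleRing.exists_algEquiv_pi_matrix_of_isAlgClosed k A
  -- the restriction of the trace to the factors
  have hf : ∀ i, ∃ c : ℕ, ∀ M : Matrix (Fin (d i)) (Fin (d i)) k, t (e.symm (Pi.single i M)) = c * M.trace := by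
    intro i
    haveI := hd i
    let s : Matrix (Fin (d i)) (Fin (d i)) k →ₗ[k] k :=
      t ∘ₗ e.symm.toLinearMap ∘ₗ LinearMap.single k (fun i => Matrix (Fin (d i)) (Fin (d i)) k) i
    have hs : ∀ M, s M = t (e.symm (Pi.single i M)) := fun M => rfl
    have hsc : ∀ a b, s (a * b) = s (b * a) := by
      intro a b
      rw [hs, hs, Pi.single_mul, Pi.single_mul, map_mul e.symm, map_mul e.symm, hc]
    have hid : (Matrix.single (0 : Fin (d i)) (0 : Fin (d i)) (1 : k)) * Matrix.single (0 : Fin (d i)) (0 : Fin (d i)) (1 : k) =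
        Matrix.single (0 : Fin (d i)) (0 : Fin (d i)) (1 : k) := by
      rw [Matrix.single_mul_single_same, mul_one]
    obtain ⟨β, hβ⟩ := hp (e.symm (Pi.single i (Matrix.single 0 0 1)))
    have hpow : ∀ j, 1 ≤ j → (e.symm (Pi.single i (Matrix.single (0 : Fin (d i)) 0 (1 : k)))) ^ j =
        e.symm (Pi.single i (Matrix.single 0 0 1)) := by
      intro j hj
      induction j, hj using Nat.le_induction with
      | base => rw [pow_one]
      | succ j _ ih => rw [pow_succ, ih, ← map_mul, ← Pi.single_mul, hid]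
    obtain ⟨c, hcc⟩ := sum_const β (s (Matrix.single 0 0 1)) (fun j hj => by
      rw [← hβ j hj, hpow j hj, hs])
    refine ⟨c, fun M => ?_⟩
    rw [← hs, trace_unique s hsc M, hcc]
  choose c hcM using hf
  have ht : ∀ a, t a = ∑ i, (c i : k) * (e a i).trace := by
    intro a
    have h2 : a = ∑ i, e.symm (Pi.single i (e a i)) := by
      rw [← map_sum, Finset.univ_sum_single, AlgEquiv.symm_apply_apply]
    conv_lhs => rw [h2]
    rw [map_sum]
    exact Finset.sum_congr rfl fun i _ => hcM i _
  have hn : n = ∑ i, c i * d i := by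
    have h2 := ht 1
    rw [h1] at h2
    have h3 : ∀ i, (e 1 i).trace = (d i : k) := by
      intro i
      rw [map_one, Pi.one_apply, Matrix.trace_one, Fintype.card_fin]
    simp only [h3] at h2
    exact_mod_cast h2
  -- the representation
  let o := Σ i : Fin m, Fin (c i)
  let φ₀ : A →+* ((p : o) → Matrix (Fin (d p.1)) (Fin (d p.1)) k) :=
    Pi.ringHom fun p => (Pi.evalRingHom (fun i => Matrix (Fin (d i)) (Fin (d i)) k) p.1).comp
      (e : A →+* ((i : Fin m) → Matrix (Fin (d i)) (Fin (d i)) k))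
  have hφ₀ : ∀ a p, φ₀ a p = e a p.1 := fun a p => rfl
  have hcard : Fintype.card (Σ p : o, Fin (d p.1)) = Fintype.card (Fin n) := by
    rw [Fintype.card_sigma, Fintype.card_fin, hn]
    simp only [Fintype.card_fin]
    rw [Fintype.sum_sigma]
    exact Finset.sum_congr rfl fun i _ => by simp
  let ev : (Σ p : o, Fin (d p.1)) ≃ Fin n := Fintype.equivOfCardEq hcard
  refine ⟨((Matrix.reindexAlgEquiv k k ev).toRingEquiv.toRingHom.comp
    (Matrix.blockDiagonal'RingHom (fun p : o => Fin (d p.1)) k)).comp φ₀, ?_, ?_⟩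
  · intro c a
    have h2 : φ₀ (c • a) = c • φ₀ a := by
      funext p
      rw [hφ₀, map_smul]
      rfl
    show Matrix.reindex ev ev (Matrix.blockDiagonal' (φ₀ (c • a))) =
      c • Matrix.reindex ev ev (Matrix.blockDiagonal' (φ₀ a))
    rw [h2, Matrix.blockDiagonal'_smul]
    rfl
  · intro a
    show (Matrix.reindex ev ev (Matrix.blockDiagonal' (φ₀ a))).trace = t a
    have htr : ∀ (X : Matrix (Σ p : o, Fin (d p.1)) (Σ p : o, Fin (d p.1)) k), (Matrix.reindex ev ev X).trace = X.trace := by
      intro X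
      rw [Matrix.trace, Matrix.trace]
      exact Equiv.sum_comp ev.symm fun x => X.diag x
    rw [htr, Matrix.trace_blockDiagonal', ht]
    simp only [hφ₀]
    rw [Fintype.sum_sigma]
    refine Finset.sum_congr rfl fun i _ => ?_
    show ∑ _y : Fin (c i), (e a i).trace = (c i : k) * (e a i).trace
    rw [Finset.sum_const, Finset.card_univ, Fintype.card_fin, nsmul_eq_mul]

end Pool.Agent.H498.BG
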