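import Pool.Agent.H498.BG.Limit

/-! Representations modulo powers of `ℓ` which are congruent at most places. -/

set_option autoImplicit false
set_option linter.all false

namespace Pool.Agent.H498.BG

open Topology Filter NumberField IsDedekindDomain Polynomial
open Pool.Agent.W401.Cheb
open Pool.Agent.W528.Ord (dens_mono dens_nonneg dens_or)
open Pool.Agent.X320.DS (Stable Semisimple)

variable {K : Type} [Field K] [NumberField K] {ℓ : ℕ} [hℓ : Fact ℓ.Prime] {n : ℕ}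

/-- The representation `ρ` over `ℤ̄_ℓ / ℓ ^ m` is unramified at `v` and the characteristic polynomials of the
Frobenius elements at `v` are the reduction of `P`, which has integral coefficients. -/
structure MatchesMod (m : ℕ) (ρ : GK K →* GL (Fin n) (ZQ ℓ m)) (P : (PadicAlgCl ℓ)[X])
    (v : HeightOneSpectrum (𝓞 K)) : Prop where
  unramified : ∀ τ, IsInert v τ → ρ τ = 1
  frobenius : ∀ σ, IsFrob v σ → ∀ j, ∃ h : P.coeff j ∈ Zbar ℓ,
    (ρ σ : Matrix (Fin n) (Fin n) (ZQ ℓ m)).charpoly.coeff j = red ℓ m ⟨P.coeff j, h⟩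

theorem trace_mul_eq {R : Type*} [CommRing R] (A B : Matrix (Fin n) (Fin n) R) :
    (A * B).trace = ∑ p : Fin n × Fin n, A p.1 p.2 * B p.2 p.1 := by
  rw [Fintype.sum_prod_type, Matrix.trace]
  rfl

theorem trace_coeff' {R : Type*} [CommRing R] [Nontrivial R] (hn : 0 < n) (M : Matrix (Fin n) (Fin n) R) :
    M.trace = - M.charpoly.coeff (n - 1) := by
  haveI : Nonempty (Fin n) := ⟨⟨0, hn⟩⟩
  rw [Matrix.trace_eq_neg_charpoly_coeff, Fintype.card_fin]

/-- conjugation does not change the trace -/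
theorem trace_conj {R : Type*} [CommRing R] {G : Type*} [Group G] (ρ : G →* GL (Fin n) R) (g τ : G) :
    (ρ (τ * g * τ⁻¹) : Matrix (Fin n) (Fin n) R).trace = (ρ g : Matrix (Fin n) (Fin n) R).trace := by
  have e : (ρ (τ * g * τ⁻¹) : Matrix (Fin n) (Fin n) R) =
      (ρ τ : Matrix (Fin n) (Fin n) R) * (ρ g : Matrix (Fin n) (Fin n) R) * (ρ τ⁻¹ : Matrix (Fin n) (Fin n) R) := by
    rw [map_mul, map_mul, Units.val_mul, Units.val_mul]
  have e2 : (ρ τ⁻¹ : Matrix (Fin n) (Fin n) R) * (ρ τ : Matrix (Fin n) (Fin n) R) = 1 := by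
    rw [← Units.val_mul, ← map_mul, inv_mul_cancel, map_one, Units.val_one]
  rw [e, Matrix.trace_mul_comm, ← mul_assoc, e2, one_mul]

theorem nontriv {m : ℕ} (hm : 0 < m) : Nontrivial (ZQ ℓ m) := by
  apply Ideal.Quotient.nontrivial_iff.2
  rw [Ne, Ideal.eq_top_iff_one, mem_I, Subring.coe_one, norm_one, not_le]
  exact pow_lt_one₀ (inv_nonneg (ℓ := ℓ)) inv_lt_one hm.ne'

/-- **Representations modulo powers of `ℓ` which are congruent at most places are congruent everywhere.** -/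
theorem traces_agree (hn : 0 < n) {m m' : ℕ} (h : m ≤ m') (ρ : GK K →* GL (Fin n) (ZQ ℓ m))
    (ρ' : GK K →* GL (Fin n) (ZQ ℓ m')) (hρ : IsOpen (ρ.ker : Set (GK K))) (hρ' : IsOpen (ρ'.ker : Set (GK K)))
    (S : Set (HeightOneSpectrum (𝓞 K))) (hS : S.Finite) (D D' : Set (HeightOneSpectrum (𝓞 K)))
    (hD : upperDensity D < 1 / (4 * n ^ 2)) (hD' : upperDensity D' < 1 / (4 * n ^ 2))
    (P : HeightOneSpectrum (𝓞 K) → (PadicAlgCl ℓ)[X]) (hm : ∀ v ∉ S, v ∉ D → MatchesMod m ρ (P v) v)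
    (hm' : ∀ v ∉ S, v ∉ D' → MatchesMod m' ρ' (P v) v) (g : GK K) :
    trans h (ρ' g : Matrix (Fin n) (Fin n) (ZQ ℓ m')).trace = (ρ g : Matrix (Fin n) (Fin n) (ZQ ℓ m)).trace := by
  classical
  rcases Nat.eq_zero_or_pos m with hm0 | hmpos
  · subst hm0
    haveI : Subsingleton (ZQ ℓ 0) := by
      apply Ideal.Quotient.subsingleton_iff.2
      rw [pow_zero, Ideal.span_singleton_one]
    exact Subsingleton.elim _ _
  haveI := nontriv (ℓ := ℓ) hmpos
  haveI := nontriv (ℓ := ℓ) (hmpos.trans_le h)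
  by_contra hne
  set f : GK K → ZQ ℓ m := fun g => trans h (ρ' g : Matrix (Fin n) (Fin n) (ZQ ℓ m')).trace -
    (ρ g : Matrix (Fin n) (Fin n) (ZQ ℓ m)).trace with hf
  let e : Fin (2 * n ^ 2) ≃ (Fin n × Fin n) ⊕ (Fin n × Fin n) :=
    Fintype.equivOfCardEq (by simp; ring)
  set u : GK K → Fin (2 * n ^ 2) → ZQ ℓ m := fun g j => Sum.elim
    (fun p : Fin n × Fin n => trans h ((ρ' g : Matrix (Fin n) (Fin n) (ZQ ℓ m')) p.1 p.2))
    (fun p : Fin n × Fin n => -((ρ g : Matrix (Fin n) (Fin n) (ZQ ℓ m)) p.1 p.2)) (e j) with hu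
  set w : GK K → Fin (2 * n ^ 2) → ZQ ℓ m := fun g j => Sum.elim
    (fun p : Fin n × Fin n => trans h ((ρ' g : Matrix (Fin n) (Fin n) (ZQ ℓ m')) p.2 p.1))
    (fun p : Fin n × Fin n => ((ρ g : Matrix (Fin n) (Fin n) (ZQ ℓ m)) p.2 p.1)) (e j) with hw
  have hfac : ∀ g h, f (g * h) = ∑ j, u g j * w h j := by
    intro x y
    rw [hu, hw]
    rw [Equiv.sum_comp e fun s => Sum.elim
      (fun p : Fin n × Fin n => trans h ((ρ' x : Matrix (Fin n) (Fin n) (ZQ ℓ m')) p.1 p.2))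
      (fun p : Fin n × Fin n => -((ρ x : Matrix (Fin n) (Fin n) (ZQ ℓ m)) p.1 p.2)) s * Sum.elim
      (fun p : Fin n × Fin n => trans h ((ρ' y : Matrix (Fin n) (Fin n) (ZQ ℓ m')) p.2 p.1))
      (fun p : Fin n × Fin n => ((ρ y : Matrix (Fin n) (Fin n) (ZQ ℓ m)) p.2 p.1)) s]
    rw [Fintype.sum_sum_type]
    simp only [Sum.elim_inl, Sum.elim_inr, neg_mul, Finset.sum_neg_distrib]
    rw [hf]
    simp only [map_mul, Units.val_mul, trace_mul_eq, map_sum]
    rw [sub_eq_add_neg]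
  have hUo : IsOpen ((ρ.ker ⊓ ρ'.ker : Subgroup (GK K)) : Set (GK K)) := by
    rw [Subgroup.coe_inf]
    exact hρ.inter hρ'
  have hker : ∀ x ∈ ρ.ker ⊓ ρ'.ker, ∀ g, ρ (g * x) = ρ g ∧ ρ' (g * x) = ρ' g := by
    intro x hx g
    rw [map_mul, map_mul, (MonoidHom.mem_ker).1 hx.1, (MonoidHom.mem_ker).1 hx.2, mul_one, mul_one]
    exact ⟨rfl, rfl⟩
  have hsum : upperDensity D + upperDensity D' < 1 / (2 * n ^ 2) := by
    have hn' : (0 : ℝ) < n := by exact_mod_cast hn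
    have e1 : (1 : ℝ) / (4 * n ^ 2) + 1 / (4 * n ^ 2) = 1 / (2 * n ^ 2) := by
      field_simp
      norm_num
    linarith
  obtain ⟨δ, hδ1, hδ2⟩ := exists_between hsum
  have key := dens_support (2 * n ^ 2) f u w hfac (ρ.ker ⊓ ρ'.ker) hUo
    (fun g x hx => by
      funext j
      simp only [hw, (hker x hx g).1, (hker x hx g).2])
    (fun g x hx => by simp only [hf, (hker x hx g).1, (hker x hx g).2])
    (fun g τ => by simp only [hf, trace_conj]) g (sub_ne_zero.2 hne) δ (by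
      push_cast
      exact hδ2)
  set η : ℝ := (δ - (upperDensity D + upperDensity D')) / 3 with hη
  have hηpos : 0 < η := by rw [hη]; linarith
  have h1 := eventually_lt (D := D) (δ := upperDensity D + η) (by linarith)
  have h2 := eventually_lt (D := D') (δ := upperDensity D' + η) (by linarith)
  have h3 := (Pool.Agent.X320.DS.dens_finite S hS).eventually (gt_mem_nhds hηpos)
  obtain ⟨N, hN, hN1, hN2, hN3⟩ := (key.and (h1.and (h2.and h3))).exists
  have h4 : ∀ v : HeightOneSpectrum (𝓞 K), (∃ σ, f σ ≠ 0 ∧ IsFrob v σ) → (v ∈ D ∨ v ∈ D') ∨ v ∈ S := by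
    rintro v ⟨σ, hσ, hv⟩
    by_contra hcon
    push Not at hcon
    obtain ⟨⟨hvD, hvD'⟩, hvS⟩ := hcon
    apply hσ
    obtain ⟨i1, e1⟩ := (hm v hvS hvD).frobenius σ hv (n - 1)
    obtain ⟨i2, e2⟩ := (hm' v hvS hvD').frobenius σ hv (n - 1)
    simp only [hf]
    rw [trace_coeff' hn, trace_coeff' hn, e1, e2, map_neg, trans_red, sub_self]
  have h5 := dens_mono h4 N
  have h6 := dens_or (fun v : HeightOneSpectrum (𝓞 K) => v ∈ D ∨ v ∈ D') (fun v => v ∈ S) N
  have h7 := dens_or (fun v : HeightOneSpectrum (𝓞 K) => v ∈ D) (fun v => v ∈ D') N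
  have h8 : η * 3 = δ - (upperDensity D + upperDensity D') := by rw [hη]; ring
  linarith

end Pool.Agent.H498.BG
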