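import Pool.Agent.H498.BG.PowerSum
import Pool.Graph.R_seed8.TH658.Eq.Newt

/-! Eigenvalues, traces of powers, and determinants of matrices of small rank. -/

set_option autoImplicit false
set_option linter.all false

namespace Pool.Agent.H498.BG

open Polynomial

/-- the characteristic polynomial determines the traces of the powers -/
theorem trace_pow_eq {n : ℕ} {k : Type} [Field k] (A B : Matrix (Fin n) (Fin n) k) (h : A.charpoly = B.charpoly)
    (j : ℕ) : (A ^ j).trace = (B ^ j).trace := by
  rcases j with _ | j
  · rw [pow_zero, pow_zero]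
  have hrev : A.charpolyRev = B.charpolyRev := by
    rw [← Matrix.reverse_charpoly, ← Matrix.reverse_charpoly, h]
  induction j using Nat.strong_induction_on with
  | _ j ih =>
    have hA := Pool.Agent.TH658.Eq.newton A j
    have hB := Pool.Agent.TH658.Eq.newton B j
    rw [hrev, hB, neg_inj] at hA
    have h0 : (0, j) ∈ Finset.HasAntidiagonal.antidiagonal j := by
      rw [Finset.HasAntidiagonal.mem_antidiagonal]; omega
    rw [← Finset.add_sum_erase _ _ h0, ← Finset.add_sum_erase _ _ h0] at hA
    have h1 : ∑ p ∈ (Finset.HasAntidiagonal.antidiagonal j).erase (0, j), B.charpolyRev.coeff p.1 * (B ^ (p.2 + 1)).trace =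
        ∑ p ∈ (Finset.HasAntidiagonal.antidiagonal j).erase (0, j), B.charpolyRev.coeff p.1 * (A ^ (p.2 + 1)).trace := by
      refine Finset.sum_congr rfl fun p hp => ?_
      have h2 := Finset.mem_erase.1 hp
      rw [Finset.HasAntidiagonal.mem_antidiagonal] at h2
      have h3 : p.2 < j := by
        rcases Nat.lt_or_ge p.2 j with h3 | h3
        · exact h3
        · exfalso
          apply h2.1
          ext
          · show p.1 = 0
            omega
          · show p.2 = j
            omega
      rw [ih p.2 h3]
    rw [h1] at hA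
    have h2 := add_right_cancel hA
    have h3 : B.charpolyRev.coeff 0 = 1 := by
      rw [coeff_zero_eq_eval_zero, Matrix.eval_charpolyRev]
    simp only [h3, one_mul] at h2
    exact h2.symm

/-- eigenvalues -/
theorem exists_eig {n : ℕ} {k : Type} [NormedField k] [CharZero k] [IsAlgClosed k] (M : Matrix (Fin n) (Fin n) k) :
    ∃ α : Fin n → k, (∀ j, (M ^ j).trace = ∑ i, α i ^ j) ∧
      ∀ j ≤ n, M.charpoly.coeff (n - j) = (-1) ^ j * MvPolynomial.aeval α (MvPolynomial.esymm (Fin n) k j) := by
  classical
  have hn : M.charpoly.natDegree = n := by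
    rw [Matrix.charpoly_natDegree_eq_dim, Fintype.card_fin]
  have hcard : M.charpoly.roots.card = n := by
    rw [← Polynomial.splits_iff_card_roots.mp (IsAlgClosed.splits M.charpoly)] at hn
    exact hn
  obtain ⟨α, hα⟩ : ∃ α : Fin n → k, M.charpoly.roots = Finset.univ.val.map α := by
    have hl : M.charpoly.roots.toList.length = n := by rw [Multiset.length_toList, hcard]
    refine ⟨fun i => M.charpoly.roots.toList.get (i.cast hl.symm), ?_⟩
    rw [Fin.univ_val_map]
    conv_lhs => rw [← Multiset.coe_toList M.charpoly.roots]
    congr 1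
    apply List.ext_get
    · simp [hl]
    · intro i h1 h2
      simp
  refine ⟨α, fun j => ?_, fun j hj => ?_⟩
  · have h1 : M.charpoly = (Matrix.diagonal α).charpoly := by
      rw [Matrix.charpoly_diagonal]
      have h2 := Polynomial.prod_multiset_X_sub_C_of_monic_of_roots_card_eq (Matrix.charpoly_monic M)
        (by rw [hcard, hn])
      rw [← h2, hα, Multiset.map_map]
      rfl
    rw [trace_pow_eq _ _ h1, Matrix.diagonal_pow, Matrix.trace_diagonal]
    rfl
  · rw [MvPolynomial.aeval_esymm_eq_multiset_esymm, ← hα]
    have h1 := Polynomial.coeff_eq_esymm_roots_of_card (p := M.charpoly) (by rw [hcard, hn]) (k := n - j)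
      (by rw [hn]; omega)
    rw [hn, (Matrix.charpoly_monic M).leadingCoeff, one_mul] at h1
    have : n - (n - j) = j := by omega
    rw [this] at h1
    exact h1

/-- a square matrix of rank less than its size -/
theorem det_zero_of_rank {R : Type*} [CommRing R] (N : ℕ) (A : Matrix (Fin (N + 1)) (Fin N) R)
    (B : Matrix (Fin N) (Fin (N + 1)) R) : (A * B).det = 0 := by
  classical
  set A' : Matrix (Fin (N + 1)) (Fin (N + 1)) R := Matrix.of fun i j =>
    Fin.lastCases (motive := fun _ => R) 0 (fun j => A i j) j with hA'
  set B' : Matrix (Fin (N + 1)) (Fin (N + 1)) R := Matrix.of fun i j =>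
    Fin.lastCases (motive := fun _ => R) 0 (fun i => B i j) i with hB'
  have h1 : A * B = A' * B' := by
    ext i j
    rw [Matrix.mul_apply, Matrix.mul_apply, Fin.sum_univ_castSucc]
    simp [hA', hB']
  rw [h1, Matrix.det_mul, Matrix.det_eq_zero_of_column_eq_zero (Fin.last N), zero_mul]
  intro i
  simp [hA']

end Pool.Agent.H498.BG
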