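import Pool.Graph.R_pool_sql_team_seeded_64922ed1.X320.DS.Frob

/-! An uncertainty principle over rings in which divisibility is total, and its consequence for the density
of the places at which two Galois representations are not congruent. -/

set_option autoImplicit false
set_option linter.all false

namespace Pool.Agent.H498.BG

open Topology Filter NumberField IsDedekindDomain
open Pool.Agent.W401.Cheb
open Pool.Agent.W528.Ord (dens_mono dens_nonneg dens_or)

/-- in a finite nonempty set of elements there is one which divides all others -/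
theorem exists_dvd_all {R : Type*} [CommRing R] [PreValuationRing R] (s : Finset R) (hs : s.Nonempty) :
    ∃ a ∈ s, ∀ b ∈ s, a ∣ b := by
  classical
  induction hs using Finset.Nonempty.cons_induction with
  | singleton a => exact ⟨a, Finset.mem_singleton_self a, fun b hb => by rw [Finset.mem_singleton.1 hb]⟩
  | cons a s ha hs ih =>
    obtain ⟨c, hc, hcd⟩ := ih
    rcases PreValuationRing.iff_dvd_total.1 (inferInstance : PreValuationRing R) |>.total a c with h | h
    · refine ⟨a, Finset.mem_cons_self _ _, fun b hb => ?_⟩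
      rcases Finset.mem_cons.1 hb with rfl | hb
      · exact dvd_rfl
      · exact h.trans (hcd b hb)
    · refine ⟨c, Finset.mem_cons.2 (Or.inr hc), fun b hb => ?_⟩
      rcases Finset.mem_cons.1 hb with rfl | hb
      · exact h
      · exact hcd b hb

/-- a function with finitely many values in `R ^ d` has `d` values such that the others are linear
combinations of them -/
theorem greedy {X R : Type*} [Nonempty X] [CommRing R] [PreValuationRing R] (d : ℕ) :
    ∀ (F : X → Fin d → R), (Set.range F).Finite →
    ∃ x : Fin d → X, ∀ y, ∃ r : Fin d → R, ∀ j, F y j = ∑ i, r i * F (x i) j := by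
  classical
  induction d with
  | zero => exact fun F _ => ⟨fun i => i.elim0, fun y => ⟨fun i => i.elim0, fun j => j.elim0⟩⟩
  | succ d ih =>
    intro F hF
    have hfin : (Set.range fun y => F y 0).Finite := by
      have : (Set.range fun y => F y 0) = (fun f : Fin (d + 1) → R => f 0) '' Set.range F := by
        rw [← Set.range_comp]; rfl
      rw [this]
      exact hF.image _
    obtain ⟨a, ha, had⟩ := exists_dvd_all hfin.toFinset
      (by rw [Set.Finite.toFinset_nonempty]; exact Set.range_nonempty _)
    rw [Set.Finite.mem_toFinset] at ha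
    obtain ⟨x0, rfl⟩ := ha
    have had' : ∀ y, F x0 0 ∣ F y 0 := fun y => had _ (by rw [Set.Finite.mem_toFinset]; exact ⟨y, rfl⟩)
    obtain ⟨γ, hγ⟩ : ∃ γ : R → R, ∀ y, F y 0 = F x0 0 * γ (F y 0) := by
      refine ⟨fun b => if h : F x0 0 ∣ b then h.choose else 0, fun y => ?_⟩
      simp only [dif_pos (had' y)]
      exact (had' y).choose_spec
    set c : X → R := fun y => γ (F y 0) with hc
    obtain ⟨x', hx'⟩ := ih (fun y j => F y j.succ - c y * F x0 j.succ) (by
      have : (Set.range fun y => fun j : Fin d => F y j.succ - c y * F x0 j.succ) =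
          (fun f : Fin (d + 1) → R => fun j : Fin d => f j.succ - γ (f 0) * F x0 j.succ) '' Set.range F := by
        rw [← Set.range_comp]; rfl
      rw [this]
      exact hF.image _)
    refine ⟨Fin.cons x0 x', fun y => ?_⟩
    obtain ⟨r', hr'⟩ := hx' y
    refine ⟨Fin.cons (c y - ∑ i, r' i * c (x' i)) r', fun j => ?_⟩
    rw [Fin.sum_univ_succ]
    simp only [Fin.cons_zero, Fin.cons_succ]
    refine Fin.cases ?_ (fun j => ?_) j
    · have h1 : ∀ y, F y 0 = c y * F x0 0 := fun y => by rw [mul_comm]; exact hγ y
      rw [h1 y]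
      have h2 : ∑ i, r' i * F (x' i) 0 = (∑ i, r' i * c (x' i)) * F x0 0 := by
        rw [Finset.sum_mul]
        exact Finset.sum_congr rfl fun i _ => by rw [h1 (x' i), mul_assoc]
      rw [h2]
      ring
    · have h3 := hr' j
      have h4 : ∑ i, r' i * (F (x' i) j.succ - c (x' i) * F x0 j.succ) =
          ∑ i, r' i * F (x' i) j.succ - (∑ i, r' i * c (x' i)) * F x0 j.succ := by
        rw [Finset.sum_mul, ← Finset.sum_sub_distrib]
        exact Finset.sum_congr rfl fun i _ => by ring
      rw [h4] at h3
      linear_combination h3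

/-- **Uncertainty principle.** `d` translates of the support of a nonzero function of rank `d` cover the
group. -/
theorem cover {G R : Type*} [Group G] [CommRing R] [PreValuationRing R] (d : ℕ) (f : G → R)
    (u w : G → Fin d → R) (hf : ∀ g h, f (g * h) = ∑ j, u g j * w h j) (hw : (Set.range w).Finite)
    (x₀ : G) (hx₀ : f x₀ ≠ 0) : ∃ x : Fin d → G, ∀ h, ∃ i, f (h * x i) ≠ 0 := by
  obtain ⟨x, hx⟩ := greedy d w hw
  refine ⟨x, fun h => ?_⟩
  by_contra hcon
  push Not at hcon
  apply hx₀
  obtain ⟨r, hr⟩ := hx (h⁻¹ * x₀)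
  have e : x₀ = h * (h⁻¹ * x₀) := by group
  rw [e, hf]
  have : ∑ j, u h j * w (h⁻¹ * x₀) j = ∑ i, r i * f (h * x i) := by
    simp only [hr, hf, Finset.mul_sum]
    rw [Finset.sum_comm]
    exact Finset.sum_congr rfl fun i _ => Finset.sum_congr rfl fun j _ => by ring
  rw [this]
  exact Finset.sum_eq_zero fun i _ => by rw [hcon i, mul_zero]

/-- **Density of the support.** -/
theorem dens_support {K : Type} [Field K] [NumberField K] {R : Type*} [CommRing R] [PreValuationRing R] (d : ℕ)
    (f : GK K → R) (u w : GK K → Fin d → R) (hf : ∀ g h, f (g * h) = ∑ j, u g j * w h j)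
    (U : Subgroup (GK K)) [U.Normal] (hU : IsOpen (U : Set (GK K))) (hwU : ∀ g, ∀ x ∈ U, w (g * x) = w g)
    (hfU : ∀ g, ∀ x ∈ U, f (g * x) = f g) (hconj : ∀ g τ, f (τ * g * τ⁻¹) = f g) (x₀ : GK K) (hx₀ : f x₀ ≠ 0)
    (δ : ℝ) (hδ : δ < 1 / d) :
    ∀ᶠ N in atTop, δ < dens (fun v : HeightOneSpectrum (𝓞 K) => ∃ σ, f σ ≠ 0 ∧ IsFrob v σ) N := by
  classical
  have hfin : Finite (GK K ⧸ U) := Subgroup.quotient_finite_of_isOpen _ hU
  have hw : (Set.range w).Finite := by
    have h1 : ∀ a b : GK K, (QuotientGroup.leftRel U) a b → w a = w b := by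
      intro a b hab
      rw [QuotientGroup.leftRel_apply] at hab
      have := hwU a _ hab
      rw [mul_inv_cancel_left] at this
      exact this.symm
    have h2 : Set.range w ⊆ Set.range (Quotient.lift w h1) := by
      rintro _ ⟨y, rfl⟩
      exact ⟨Quotient.mk _ y, rfl⟩
    exact (Set.finite_range (Quotient.lift w h1)).subset h2
  obtain ⟨x, hx⟩ := cover d f u w hf hw x₀ hx₀
  set C : Set (GK K) := {σ | f σ ≠ 0} with hC
  have key := Pool.Agent.W528.Ord.chebK K U hU C
    (fun σ hσ τ => by show f _ ≠ 0; rw [hconj]; exact hσ)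
    (fun σ hσ u hu => by show f _ ≠ 0; rw [hfU _ _ hu]; exact hσ)
  set m : GK K → GK K ⧸ U := QuotientGroup.mk with hm
  have hcard : (0 : ℝ) < (Nat.card (GK K ⧸ U) : ℝ) := by exact_mod_cast Nat.card_pos
  have hcount : Nat.card (GK K ⧸ U) ≤ d * (m '' C).ncard := by
    have h1 : (Set.univ : Set (GK K ⧸ U)) ⊆ ⋃ i : Fin d, (fun q : GK K ⧸ U => q * (m (x i))⁻¹) '' (m '' C) := by
      intro q _
      obtain ⟨h, rfl⟩ := QuotientGroup.mk_surjective q
      obtain ⟨i, hi⟩ := hx h
      refine Set.mem_iUnion.2 ⟨i, m (h * x i), ⟨h * x i, hi, rfl⟩, ?_⟩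
      show (m (h * x i)) * (m (x i))⁻¹ = m h
      have : m (h * x i) = m h * m (x i) := rfl
      rw [this, mul_inv_cancel_right]
    have h2 := Set.ncard_le_ncard h1 (Set.toFinite _)
    rw [Set.ncard_univ] at h2
    refine h2.trans ?_
    have h3 : ∀ s : Finset (Fin d), (⋃ i ∈ s, (fun q : GK K ⧸ U => q * (m (x i))⁻¹) '' (m '' C)).ncard ≤
        s.card * (m '' C).ncard := by
      intro s
      induction s using Finset.induction_on with
      | empty => simp
      | insert a s ha ih =>
        rw [Finset.set_biUnion_insert, Finset.card_insert_of_notMem ha]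
        refine (Set.ncard_union_le _ _).trans ?_
        have h4 := Set.ncard_image_le (f := fun q : GK K ⧸ U => q * (m (x a))⁻¹) (Set.toFinite (m '' C))
        nlinarith
    have h5 := h3 Finset.univ
    simpa using h5
  have hlim : δ < ((m '' C).ncard : ℝ) / (Nat.card (GK K ⧸ U) : ℝ) := by
    have hd : (0 : ℝ) < d := by
      rcases Nat.eq_zero_or_pos d with h0 | h0
      · subst h0
        rw [Nat.zero_mul] at hcount
        have := Nat.card_pos (α := GK K ⧸ U)
        omega
      · exact_mod_cast h0
    refine hδ.trans_le ?_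
    rw [div_le_div_iff₀ hd hcard, one_mul, mul_comm]
    exact_mod_cast hcount
  filter_upwards [key.eventually (lt_mem_nhds hlim)] with N hN
  exact hN

end Pool.Agent.H498.BG
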