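import Pool.Agent.H498.BG.LimRep

/-! Continuity, ramification and Frobenius polynomials of the limit representation. -/

set_option autoImplicit false
set_option linter.all false

namespace Pool.Agent.H498.BG

open Topology Filter NumberField IsDedekindDomain Polynomial Module
open Pool.Agent.W401.Cheb
open Pool.Agent.X320.DS (Stable Semisimple toEnd alg trace_nondeg exists_basis alg_eq_span)

/-- functionals which separate the points of a subspace span its dual -/
theorem dual_comb {k V : Type*} [Field k] [AddCommGroup V] [Module k V] (W : Submodule k V) (d : ℕ)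
    (φ : Fin d → V →ₗ[k] k) (h : ∀ x ∈ W, (∀ i, φ i x = 0) → x = 0) (ψ : V →ₗ[k] k) :
    ∃ c : Fin d → k, ∀ x ∈ W, ψ x = ∑ i, c i * φ i x := by
  classical
  let Λ : W →ₗ[k] (Fin d → k) := LinearMap.pi fun i => (φ i) ∘ₗ W.subtype
  have hinj : LinearMap.ker Λ = ⊥ := by
    rw [LinearMap.ker_eq_bot']
    rintro ⟨x, hx⟩ h0
    exact Subtype.ext (h x hx fun i => congrFun h0 i)
  obtain ⟨Λ', hΛ'⟩ := Λ.exists_leftInverse_of_injective hinj
  refine ⟨fun i => ψ (Λ' (Pi.single i 1)).1, fun x hx => ?_⟩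
  have h1 : (⟨x, hx⟩ : W) = ∑ i, φ i x • Λ' (Pi.single i 1) := by
    have h2 : Λ' (Λ ⟨x, hx⟩) = ⟨x, hx⟩ := LinearMap.congr_fun hΛ' _
    rw [← h2]
    conv_lhs => rw [← Finset.univ_sum_single (Λ ⟨x, hx⟩)]
    rw [map_sum]
    refine Finset.sum_congr rfl fun i _ => ?_
    rw [← map_smul, ← Pi.single_smul, smul_eq_mul, mul_one]
    rfl
  have h3 := congrArg (fun w : W => ψ w.1) h1
  simp only [Submodule.coe_sum, Submodule.coe_smul, map_sum, map_smul, smul_eq_mul] at h3
  rw [h3]
  exact Finset.sum_congr rfl fun i _ => mul_comm _ _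

/-- a semisimple representation with continuous trace is continuous -/
theorem continuous_of_trace {G : Type*} [Group G] [TopologicalSpace G] [IsTopologicalGroup G] {k : Type*}
    [NormedField k] [CharZero k] {n : ℕ} {r : G →* GL (Fin n) k} (hr : Semisimple r)
    (ht : Continuous fun g => (r g : Matrix (Fin n) (Fin n) k).trace) : Continuous r := by
  classical
  have hn : ((n.factorial : ℕ) : k) ≠ 0 := by exact_mod_cast n.factorial_ne_zero
  obtain ⟨d, f, hf1, hf2⟩ : ∃ (d : ℕ) (f : Fin d → Module.End k (Fin n → k)), (∀ i, f i ∈ Set.range (toEnd r)) ∧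
      Submodule.span k (Set.range f) = Submodule.span k (Set.range (toEnd r)) := by
    obtain ⟨f, hf1, hf2, hf3⟩ := Submodule.exists_fun_fin_finrank_span_eq k (Set.range (toEnd r))
    exact ⟨_, f, hf1, hf2⟩
  choose g hg using hf1
  let φ : Fin d → Matrix (Fin n) (Fin n) k →ₗ[k] k := fun i =>
    (Matrix.traceLinearMap (Fin n) k k) ∘ₗ (LinearMap.mulLeft k (r (g i) : Matrix (Fin n) (Fin n) k))
  have hφ : ∀ i M, φ i M = ((r (g i) : Matrix (Fin n) (Fin n) k) * M).trace := fun i M => rfl
  have hsep : ∀ M ∈ Submodule.span k (Set.range fun x => (r x : Matrix (Fin n) (Fin n) k)),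
      (∀ i, φ i M = 0) → M = 0 := by
    intro M hM h0
    have hx : Matrix.toLin' M ∈ alg r := by
      have h1 : Matrix.toLin' M ∈ (Submodule.span k (Set.range fun x => (r x : Matrix (Fin n) (Fin n) k))).map
          (Matrix.toLin' : Matrix (Fin n) (Fin n) k ≃ₗ[k] _).toLinearMap := ⟨M, hM, rfl⟩
      rw [Submodule.map_span, ← Set.range_comp] at h1
      have h2 : Matrix.toLin' M ∈ Subalgebra.toSubmodule (alg r) := by
        rw [alg_eq_span]
        exact h1
      exact h2
    have h2 : Matrix.toLin' M = 0 := by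
      refine trace_nondeg hr hn hx fun a ha => ?_
      have ha' : a ∈ Submodule.span k (Set.range f) := by
        rw [hf2, ← alg_eq_span]
        exact ha
      refine Submodule.span_induction (p := fun a _ => LinearMap.trace k (Fin n → k) (a * Matrix.toLin' M) = 0)
        ?_ ?_ ?_ ?_ ha'
      · rintro _ ⟨i, rfl⟩
        rw [← hg i]
        have h3 := h0 i
        rw [hφ, ← Matrix.trace_toLin'_eq, Matrix.toLin'_mul] at h3
        exact h3
      · simp
      · intro a b _ _ ha hb
        rw [add_mul, map_add, ha, hb, add_zero]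
      · intro c a _ ha
        rw [smul_mul_assoc, map_smul, ha, smul_zero]
    exact (LinearEquiv.map_eq_zero_iff _).1 h2
  have hent : ∀ a b, Continuous fun x => (r x : Matrix (Fin n) (Fin n) k) a b := by
    intro a b
    obtain ⟨c, hc⟩ := dual_comb _ d φ hsep (Matrix.entryLinearMap k k a b)
    have h1 : ∀ x, (r x : Matrix (Fin n) (Fin n) k) a b =
        ∑ i, c i * (r (g i * x) : Matrix (Fin n) (Fin n) k).trace := by
      intro x
      have h2 := hc (r x) (Submodule.subset_span ⟨x, rfl⟩)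
      rw [Matrix.entryLinearMap_apply] at h2
      rw [h2]
      refine Finset.sum_congr rfl fun i _ => ?_
      rw [hφ, map_mul, Units.val_mul]
    simp only [h1]
    refine continuous_finset_sum _ fun i _ => continuous_const.mul ?_
    exact ht.comp (continuous_const.mul continuous_id)
  have hmat : Continuous fun x => (r x : Matrix (Fin n) (Fin n) k) :=
    continuous_matrix hent
  rw [Units.continuous_iff]
  refine ⟨hmat, ?_⟩
  have : (fun x => (((r x)⁻¹ : GL (Fin n) k) : Matrix (Fin n) (Fin n) k)) = fun x => (r x⁻¹ : Matrix (Fin n) (Fin n) k) := by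
    funext x
    rw [map_inv]
  show Continuous (fun x => (((r x)⁻¹ : GL (Fin n) k) : Matrix (Fin n) (Fin n) k))
  rw [this]
  exact hmat.comp continuous_inv

variable {K : Type} [Field K] [NumberField K] {ℓ : ℕ} [hℓ : Fact ℓ.Prime] {n : ℕ}
variable {S : Set (HeightOneSpectrum (𝓞 K))} {P : HeightOneSpectrum (𝓞 K) → (PadicAlgCl ℓ)[X]}
  {L : Submodule ℚ_[ℓ] (PadicAlgCl ℓ)} {ρ : (m : ℕ) → GK K →* GL (Fin n) (ZQ ℓ m)}
  {D : ℕ → Set (HeightOneSpectrum (𝓞 K))}

/-- **The limit theorem.** -/
theorem Sys.main [FiniteDimensional ℚ_[ℓ] L] (H : Sys S P L ρ D) :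
    ∃ r : GK K →* GL (Fin n) (PadicAlgCl ℓ), Continuous r ∧ Semisimple r ∧
      (∀ v ∉ S, (∀ τ, IsInert v τ → r τ = 1) ∧
        ∀ σ, IsFrob v σ → (r σ : Matrix (Fin n) (Fin n) (PadicAlgCl ℓ)).charpoly = P v) ∧
      ∀ m g, ∃ h : (r g : Matrix (Fin n) (Fin n) (PadicAlgCl ℓ)).trace ∈ Zbar ℓ,
        red ℓ m ⟨_, h⟩ = (ρ m g : Matrix (Fin n) (Fin n) (ZQ ℓ m)).trace := by
  classical
  choose T hT' using H.limit
  have hT : ∀ m g, red ℓ m (T g) = (ρ m g : Matrix (Fin n) (Fin n) (ZQ ℓ m)).trace := fun m g => hT' g m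
  obtain ⟨r, hr, hrT⟩ := exists_limit_rep T ρ hT
  have hTc : Continuous fun g => (T g : PadicAlgCl ℓ) := by
    rw [continuous_iff_continuousAt]
    intro x
    rw [ContinuousAt, Metric.tendsto_nhds]
    intro ε hε
    obtain ⟨m, hm⟩ := exists_pow_lt_of_lt_one hε (inv_lt_one (ℓ := ℓ))
    have hopen : IsOpen {y | ρ m y = ρ m x} := by
      have : {y | ρ m y = ρ m x} = (fun y => x⁻¹ * y) ⁻¹' ((ρ m).ker : Set (GK K)) := by
        ext y
        simp only [Set.mem_setOf_eq, Set.mem_preimage, SetLike.mem_coe, MonoidHom.mem_ker, map_mul, map_inv]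
        rw [inv_mul_eq_one, eq_comm]
      rw [this]
      exact (H.opn m).preimage (continuous_mul_left x⁻¹)
    filter_upwards [hopen.mem_nhds (show ρ m x = ρ m x from rfl)] with y hy
    rw [dist_eq_norm]
    refine lt_of_le_of_lt ((red_eq m (T y) (T x)).1 ?_) hm
    rw [hT, hT]
    have hy' : ρ m y = ρ m x := hy
    rw [hy']
  have hrc : Continuous r := continuous_of_trace hr (by simp only [hrT]; exact hTc)
  have hfac : ((n.factorial : ℕ) : PadicAlgCl ℓ) ≠ 0 := by exact_mod_cast n.factorial_ne_zero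
  refine ⟨r, hrc, hr, fun v hv => ⟨fun τ hτ => ?_, fun σ hσ => ?_⟩, fun m g => ?_⟩
  · obtain ⟨d, g, _, hg⟩ := exists_basis hr hfac
    have h1 := hg τ 1 (fun i => by
      rw [hrT, hrT, mul_one]
      congr 1
      refine eq_of_red fun m => ?_
      rw [hT, hT, H.inert hv hτ])
    rw [h1, map_one]
  · -- the characteristic polynomial
    set l : Filter ℕ := atTop ⊓ 𝓟 {m | v ∉ D m} with hl
    haveI : l.NeBot := by
      rw [hl, ← frequently_mem_iff_neBot, Nat.frequently_atTop_iff_infinite]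
      exact H.inf v hv
    have hl0 : Tendsto (fun m : ℕ => (ℓ : ℝ)⁻¹ ^ m) l (𝓝 0) :=
      (tendsto_pow_atTop_nhds_zero_of_lt_one (inv_nonneg (ℓ := ℓ)) inv_lt_one).mono_left inf_le_left
    have hM : ∀ m, ∃ M : Matrix (Fin n) (Fin n) (Zbar ℓ), M.map (red ℓ m) =
        (ρ m σ : Matrix (Fin n) (Fin n) (ZQ ℓ m)) := fun m => exists_lift _
    choose M hM using hM
    choose α hα using fun m => exists_eig ((M m).map (Zbar ℓ).subtype)
    obtain ⟨γ, hγ⟩ := exists_eig (r σ : Matrix (Fin n) (Fin n) (PadicAlgCl ℓ))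
    have hcoeff : ∀ j, Tendsto (fun m => ((M m).map (Zbar ℓ).subtype).charpoly.coeff j) l (𝓝 ((P v).coeff j)) := by
      intro j
      rw [tendsto_iff_norm_sub_tendsto_zero]
      refine squeeze_zero' (Eventually.of_forall fun m => norm_nonneg _) ?_ hl0
      have hev : ∀ᶠ m in l, v ∉ D m := by
        rw [hl]
        exact mem_inf_of_right (mem_principal_self _)
      filter_upwards [hev] with m hm
      obtain ⟨h, e⟩ := (H.mat m v hv hm).frobenius σ hσ j
      have e1 : ((M m).map (Zbar ℓ).subtype).charpoly.coeff j = (((M m).charpoly.coeff j : Zbar ℓ) : PadicAlgCl ℓ) := by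
        rw [Matrix.charpoly_map, Polynomial.coeff_map]
        rfl
      rw [e1]
      have e2 : ((P v).coeff j) = ((⟨(P v).coeff j, h⟩ : Zbar ℓ) : PadicAlgCl ℓ) := rfl
      rw [e2, ← red_eq, ← e, ← hM, Matrix.charpoly_map, Polynomial.coeff_map]
    have hps : ∀ j, 0 < j → Tendsto (fun m => ∑ i, α m i ^ j) l (𝓝 (∑ i, γ i ^ j)) := by
      intro j _
      rw [tendsto_iff_norm_sub_tendsto_zero]
      refine squeeze_zero (fun m => norm_nonneg _) (fun m => ?_) hl0
      rw [← (hα m).1 j, ← hγ.1 j, (lift_trace (m := m) (M m) j).1]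
      have e3 : ((r σ : Matrix (Fin n) (Fin n) (PadicAlgCl ℓ)) ^ j).trace = ((T (σ ^ j) : Zbar ℓ) : PadicAlgCl ℓ) := by
        rw [← hrT, map_pow, Units.val_pow_eq_pow_val]
      rw [e3, ← red_eq, (lift_trace (m := m) (M m) j).2, hM, hT, map_pow, Units.val_pow_eq_pow_val]
    ext j
    rcases le_or_gt j n with hj | hj
    · obtain ⟨i, rfl⟩ : ∃ i, j = n - i := ⟨n - j, by omega⟩
      obtain ⟨i', hi', hi'n⟩ : ∃ i', n - i = n - i' ∧ i' ≤ n := ⟨min i n, by omega, by omega⟩
      rw [hi', hγ.2 i' hi'n]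
      obtain ⟨E, hE⟩ := esymm_limit n (fun j => ∑ i, γ i ^ j) i'
      have h1 := hE ℕ l α hps
      have h2 := hE ℕ l (fun _ => γ) (fun j _ => tendsto_const_nhds)
      have h3 := tendsto_nhds_unique tendsto_const_nhds h2
      have h4 := hcoeff (n - i')
      have h5 : ∀ m, ((M m).map (Zbar ℓ).subtype).charpoly.coeff (n - i') =
          (-1) ^ i' * MvPolynomial.aeval (α m) (MvPolynomial.esymm (Fin n) (PadicAlgCl ℓ) i') := fun m =>
        (hα m).2 i' hi'n
      simp only [h5] at h4
      rw [h3]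
      exact tendsto_nhds_unique (h1.const_mul _) h4
    · have h1 : (r σ : Matrix (Fin n) (Fin n) (PadicAlgCl ℓ)).charpoly.coeff j = 0 := by
        apply Polynomial.coeff_eq_zero_of_natDegree_lt
        rw [Matrix.charpoly_natDegree_eq_dim, Fintype.card_fin]
        exact hj
      have h2 : ∀ m, ((M m).map (Zbar ℓ).subtype).charpoly.coeff j = 0 := by
        intro m
        apply Polynomial.coeff_eq_zero_of_natDegree_lt
        rw [Matrix.charpoly_natDegree_eq_dim, Fintype.card_fin]
        exact hj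
      have h3 := hcoeff j
      simp only [h2] at h3
      rw [h1]
      exact tendsto_nhds_unique tendsto_const_nhds h3
  · have h1 : (r g : Matrix (Fin n) (Fin n) (PadicAlgCl ℓ)).trace ∈ Zbar ℓ := by
      rw [hrT]
      exact (T g).2
    refine ⟨h1, ?_⟩
    rw [← hT]
    congr 1
    apply Subtype.ext
    exact hrT g

end Pool.Agent.H498.BG
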