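import Pool.Agent.H498.BG.LimTrace

/-! The limit representation. -/

set_option autoImplicit false
set_option linter.all false

namespace Pool.Agent.H498.BG

open Topology Filter NumberField IsDedekindDomain Polynomial
open Pool.Agent.W401.Cheb
open Pool.Agent.W528.Ord (dens_mono dens_nonneg dens_or)
open Pool.Agent.X320.DS (Stable Semisimple toEnd alg trace_nondeg exists_basis)

section
variable {G : Type*} [Group G]

/-- linear extension over a ring -/
noncomputable def hatR {R : Type*} [CommRing R] (T : G → R) : MonoidAlgebra R G →ₗ[R] R :=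
  (Finsupp.linearCombination R T) ∘ₗ (MonoidAlgebra.coeffLinearEquiv R).toLinearMap

theorem hatR_single {R : Type*} [CommRing R] (T : G → R) (g : G) (c : R) :
    hatR T (MonoidAlgebra.single g c) = c * T g := by
  simp [hatR]

variable {ℓ : ℕ} [hℓ : Fact ℓ.Prime] {n : ℕ}

/-- the inclusion of group algebras -/
noncomputable def emb : MonoidAlgebra (Zbar ℓ) G →+* MonoidAlgebra (PadicAlgCl ℓ) G :=
  MonoidAlgebra.mapRingHom G (Zbar ℓ).subtype

theorem emb_single (g : G) (c : Zbar ℓ) :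
    emb (MonoidAlgebra.single g c) = MonoidAlgebra.single g (c : PadicAlgCl ℓ) := by
  simp [emb]

theorem hat_emb (T : G → Zbar ℓ) (x : MonoidAlgebra (Zbar ℓ) G) :
    hat (fun g => (T g : PadicAlgCl ℓ)) (emb x) = (hatR T x : PadicAlgCl ℓ) := by
  induction x using MonoidAlgebra.induction_linear with
  | zero => simp
  | add x y hx hy => rw [map_add, map_add, hx, hy, map_add, Subring.coe_add]
  | single g c => rw [emb_single, hat_single, hatR_single, Subring.coe_mul]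

theorem exists_scale (x : MonoidAlgebra (PadicAlgCl ℓ) G) :
    ∃ (s : ℕ) (x' : MonoidAlgebra (Zbar ℓ) G), ((ℓ : PadicAlgCl ℓ) ^ s) • x = emb x' := by
  induction x using MonoidAlgebra.induction_linear with
  | zero => exact ⟨0, 0, by simp⟩
  | add x y hx hy =>
    obtain ⟨s, x', hs⟩ := hx
    obtain ⟨s', y', hs'⟩ := hy
    refine ⟨s + s', ((ℓ : Zbar ℓ) ^ s') • x' + ((ℓ : Zbar ℓ) ^ s) • y', ?_⟩
    have e : ∀ (c : Zbar ℓ) (z : MonoidAlgebra (Zbar ℓ) G), emb (c • z) = (c : PadicAlgCl ℓ) • emb z := by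
      intro c z
      induction z using MonoidAlgebra.induction_linear with
      | zero => simp
      | add z w hz hw => rw [smul_add, map_add, hz, hw, map_add, smul_add]
      | single g d =>
        rw [MonoidAlgebra.smul_single, emb_single, emb_single, MonoidAlgebra.smul_single]
        rfl
    rw [map_add, e, e, ← hs, ← hs', smul_add, smul_smul, smul_smul]
    have e2 : (((ℓ : Zbar ℓ) ^ s' : Zbar ℓ) : PadicAlgCl ℓ) = (ℓ : PadicAlgCl ℓ) ^ s' := by simp
    have e3 : (((ℓ : Zbar ℓ) ^ s : Zbar ℓ) : PadicAlgCl ℓ) = (ℓ : PadicAlgCl ℓ) ^ s := by simp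
    rw [e2, e3, ← pow_add, ← pow_add, add_comm s' s]
  | single g c =>
    obtain ⟨s, hs⟩ := pow_unbounded_of_one_lt ‖c‖ (show (1 : ℝ) < ℓ by exact_mod_cast hℓ.out.one_lt)
    have h1 : ‖(ℓ : PadicAlgCl ℓ) ^ s * c‖ ≤ 1 := by
      have e : ‖(ℓ : PadicAlgCl ℓ)‖ = (ℓ : ℝ)⁻¹ := by
        rw [← norm_ell (ℓ := ℓ)]
        simp
      rw [norm_mul, norm_pow, e, inv_pow, inv_mul_le_one₀ (by have := hℓ.out.pos; positivity)]
      exact hs.le
    refine ⟨s, MonoidAlgebra.single g ⟨_, h1⟩, ?_⟩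
    rw [emb_single, MonoidAlgebra.smul_single, smul_eq_mul]

theorem exists_lift {m : ℕ} (A : Matrix (Fin n) (Fin n) (ZQ ℓ m)) :
    ∃ M : Matrix (Fin n) (Fin n) (Zbar ℓ), M.map (red ℓ m) = A := by
  choose M hM using fun i j => Ideal.Quotient.mk_surjective (A i j)
  exact ⟨M, by ext i j; exact hM i j⟩

/-- the action of the group algebra on `(ℤ̄_ℓ / ℓ ^ m) ^ n` -/
noncomputable def phi {m : ℕ} (ρ : G →* GL (Fin n) (ZQ ℓ m)) :
    MonoidAlgebra (Zbar ℓ) G →ₐ[Zbar ℓ] Matrix (Fin n) (Fin n) (ZQ ℓ m) :=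
  MonoidAlgebra.lift (Zbar ℓ) (Matrix (Fin n) (Fin n) (ZQ ℓ m)) G ((Units.coeHom _).comp ρ)

theorem phi_trace {m : ℕ} (ρ : G →* GL (Fin n) (ZQ ℓ m)) (T : G → Zbar ℓ)
    (hT : ∀ g, red ℓ m (T g) = (ρ g : Matrix (Fin n) (Fin n) (ZQ ℓ m)).trace) (x : MonoidAlgebra (Zbar ℓ) G) :
    (phi ρ x).trace = red ℓ m (hatR T x) := by
  induction x using MonoidAlgebra.induction_linear with
  | zero => simp
  | add x y hx hy => rw [map_add, Matrix.trace_add, hx, hy, map_add, map_add]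
  | single g c =>
    rw [phi, MonoidAlgebra.lift_single, Matrix.trace_smul, hatR_single, map_mul, hT]
    rfl

/-- traces of lifts -/
theorem lift_trace {m : ℕ} (M : Matrix (Fin n) (Fin n) (Zbar ℓ)) (j : ℕ) :
    (((M.map (Zbar ℓ).subtype) ^ j).trace = (((M ^ j).trace : Zbar ℓ) : PadicAlgCl ℓ)) ∧
      red ℓ m (M ^ j).trace = ((M.map (red ℓ m)) ^ j).trace := by
  constructor
  · have e : (M.map (Zbar ℓ).subtype) ^ j = (M ^ j).map (Zbar ℓ).subtype := by
      rw [← RingHom.mapMatrix_apply, ← RingHom.mapMatrix_apply, map_pow]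
    rw [e]
    exact (AddMonoidHom.map_trace (Zbar ℓ).subtype.toAddMonoidHom (M ^ j)).symm
  · have e : (M.map (red ℓ m)) ^ j = (M ^ j).map (red ℓ m) := by
      rw [← RingHom.mapMatrix_apply, ← RingHom.mapMatrix_apply, map_pow]
    rw [e]
    exact AddMonoidHom.map_trace (red ℓ m).toAddMonoidHom (M ^ j)

/-- the values of the limit on powers are power sums -/
theorem hat_psum (T : G → Zbar ℓ) (ρ : (m : ℕ) → G →* GL (Fin n) (ZQ ℓ m))
    (hT : ∀ m g, red ℓ m (T g) = (ρ m g : Matrix (Fin n) (Fin n) (ZQ ℓ m)).trace)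
    (x : MonoidAlgebra (PadicAlgCl ℓ) G) : ∃ β : Fin n → PadicAlgCl ℓ, ∀ j, 0 < j →
      hat (fun g => (T g : PadicAlgCl ℓ)) (x ^ j) = ∑ i, β i ^ j := by
  obtain ⟨s, x', hx'⟩ := exists_scale x
  have hM : ∀ m, ∃ M : Matrix (Fin n) (Fin n) (Zbar ℓ), M.map (red ℓ m) = phi (ρ m) x' := fun m => exists_lift _
  choose M hM using hM
  choose α hα using fun m => exists_eig ((M m).map (Zbar ℓ).subtype)
  have h1 : ∀ m j, ‖(∑ i, α m i ^ j) - hat (fun g => (T g : PadicAlgCl ℓ)) ((emb x') ^ j)‖ ≤ (ℓ : ℝ)⁻¹ ^ m := by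
    intro m j
    rw [← (hα m).1 j, (lift_trace (m := m) (M m) j).1, ← map_pow, hat_emb]
    rw [← red_eq, (lift_trace (m := m) (M m) j).2, hM, ← map_pow, phi_trace (ρ m) T (hT m)]
  obtain ⟨β, hβ⟩ := psum_closed n α (fun j => hat (fun g => (T g : PadicAlgCl ℓ)) ((emb x') ^ j)) (fun j _ => by
    rw [tendsto_iff_norm_sub_tendsto_zero]
    exact squeeze_zero (fun m => norm_nonneg _) (fun m => h1 m j)
      (tendsto_pow_atTop_nhds_zero_of_lt_one (inv_nonneg (ℓ := ℓ)) inv_lt_one))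
  have hl : ((ℓ : PadicAlgCl ℓ) ^ s) ≠ 0 := pow_ne_zero _ (by exact_mod_cast hℓ.out.ne_zero)
  refine ⟨fun i => ((ℓ : PadicAlgCl ℓ) ^ s)⁻¹ * β i, fun j hj => ?_⟩
  have e : x = ((ℓ : PadicAlgCl ℓ) ^ s)⁻¹ • emb x' := by
    rw [← hx', smul_smul, inv_mul_cancel₀ hl, one_smul]
  rw [e, _root_.smul_pow, map_smul, hβ j hj, smul_eq_mul, Finset.mul_sum]
  exact Finset.sum_congr rfl fun i _ => by rw [mul_pow]

/-- **The representation with the limit traces.** -/
theorem exists_limit_rep (T : G → Zbar ℓ) (ρ : (m : ℕ) → G →* GL (Fin n) (ZQ ℓ m))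
    (hT : ∀ m g, red ℓ m (T g) = (ρ m g : Matrix (Fin n) (Fin n) (ZQ ℓ m)).trace) :
    ∃ r : G →* GL (Fin n) (PadicAlgCl ℓ), Semisimple r ∧
      ∀ g, (r g : Matrix (Fin n) (Fin n) (PadicAlgCl ℓ)).trace = T g := by
  classical
  refine recon n (fun g => (T g : PadicAlgCl ℓ)) ?_ ?_ (n ^ 2) ?_ (hat_psum T ρ hT)
  · have h1 : T 1 = (n : Zbar ℓ) := by
      refine eq_of_red fun m => ?_
      rw [hT, map_one, Units.val_one, Matrix.trace_one, Fintype.card_fin, map_natCast]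
    show ((T 1 : Zbar ℓ) : PadicAlgCl ℓ) = n
    rw [h1]
    simp
  · intro x y
    have h1 : T (x * y) = T (y * x) := by
      refine eq_of_red fun m => ?_
      rw [hT, hT, map_mul, map_mul, Units.val_mul, Units.val_mul, Matrix.trace_mul_comm]
    show ((T (x * y) : Zbar ℓ) : PadicAlgCl ℓ) = T (y * x)
    rw [h1]
  · intro g h
    have h1 : (Matrix.of fun i j => T (g i * h j)).det = 0 := by
      refine eq_of_red fun m => ?_
      rw [RingHom.map_det, map_zero]
      let e : Fin (n ^ 2) ≃ Fin n × Fin n := Fintype.equivOfCardEq (by simp; ring)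
      have h2 : (red ℓ m).mapMatrix (Matrix.of fun i j => T (g i * h j)) =
          (Matrix.of fun (i : Fin (n ^ 2 + 1)) (p : Fin (n ^ 2)) =>
            (ρ m (g i) : Matrix (Fin n) (Fin n) (ZQ ℓ m)) (e p).1 (e p).2) *
          (Matrix.of fun (p : Fin (n ^ 2)) (j : Fin (n ^ 2 + 1)) =>
            (ρ m (h j) : Matrix (Fin n) (Fin n) (ZQ ℓ m)) (e p).2 (e p).1) := by
        ext i j
        rw [RingHom.mapMatrix_apply, Matrix.map_apply, Matrix.of_apply, Matrix.mul_apply]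
        simp only [Matrix.of_apply]
        rw [hT, map_mul, Units.val_mul, trace_mul_eq]
        exact (Equiv.sum_comp e fun p : Fin n × Fin n => (ρ m (g i) : Matrix (Fin n) (Fin n) (ZQ ℓ m)) p.1 p.2 *
          (ρ m (h j) : Matrix (Fin n) (Fin n) (ZQ ℓ m)) p.2 p.1).symm
      rw [h2]
      exact det_zero_of_rank _ _ _
    have h2 := congrArg (Zbar ℓ).subtype h1
    rw [RingHom.map_det, map_zero] at h2
    exact h2

end

end Pool.Agent.H498.BG
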