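import Pool.Agent.H498.BG.Cauchy

/-! The limit of the traces. -/

set_option autoImplicit false
set_option linter.all false

namespace Pool.Agent.H498.BG

open Topology Filter NumberField IsDedekindDomain Polynomial
open Pool.Agent.W401.Cheb
open Pool.Agent.W528.Ord (dens_mono dens_nonneg dens_or)
open Pool.Agent.X320.DS (Stable Semisimple)

variable {K : Type} [Field K] [NumberField K] {ℓ : ℕ} [hℓ : Fact ℓ.Prime] {n : ℕ}

/-- a system of representations modulo the powers of `ℓ`, congruent to the Satake polynomials `P v` at most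
places -/
structure Sys (S : Set (HeightOneSpectrum (𝓞 K))) (P : HeightOneSpectrum (𝓞 K) → (PadicAlgCl ℓ)[X])
    (L : Submodule ℚ_[ℓ] (PadicAlgCl ℓ)) (ρ : (m : ℕ) → GK K →* GL (Fin n) (ZQ ℓ m))
    (D : ℕ → Set (HeightOneSpectrum (𝓞 K))) : Prop where
  pos : 0 < n
  fin : S.Finite
  coeff : ∀ v ∉ S, ∀ j, (P v).coeff j ∈ L
  opn : ∀ m, IsOpen ((ρ m).ker : Set (GK K))
  dens : ∀ m, upperDensity (D m) < 1 / (4 * n ^ 2)
  mat : ∀ m, ∀ v ∉ S, v ∉ D m → MatchesMod m (ρ m) (P v) v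
  inf : ∀ v ∉ S, {m | v ∉ D m}.Infinite

variable {S : Set (HeightOneSpectrum (𝓞 K))} {P : HeightOneSpectrum (𝓞 K) → (PadicAlgCl ℓ)[X]}
  {L : Submodule ℚ_[ℓ] (PadicAlgCl ℓ)} {ρ : (m : ℕ) → GK K →* GL (Fin n) (ZQ ℓ m)}
  {D : ℕ → Set (HeightOneSpectrum (𝓞 K))}

theorem Sys.agree (H : Sys S P L ρ D) {m m' : ℕ} (h : m ≤ m') (g : GK K) :
    trans h (ρ m' g : Matrix (Fin n) (Fin n) (ZQ ℓ m')).trace = (ρ m g : Matrix (Fin n) (Fin n) (ZQ ℓ m)).trace :=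
  traces_agree H.pos h (ρ m) (ρ m') (H.opn m) (H.opn m') S H.fin (D m) (D m') (H.dens m) (H.dens m') P (H.mat m)
    (H.mat m') g

theorem Sys.large (H : Sys S P L ρ D) {v : HeightOneSpectrum (𝓞 K)} (hv : v ∉ S) (m : ℕ) :
    ∃ m', m < m' ∧ v ∉ D m' := by
  obtain ⟨m', h1, h2⟩ := (H.inf v hv).exists_gt m
  exact ⟨m', h2, h1⟩

theorem Sys.frob_trace (H : Sys S P L ρ D) {v : HeightOneSpectrum (𝓞 K)} (hv : v ∉ S) {σ : GK K}
    (hσ : IsFrob v σ) (m : ℕ) : ∃ h : (P v).coeff (n - 1) ∈ Zbar ℓ,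
      (ρ m σ : Matrix (Fin n) (Fin n) (ZQ ℓ m)).trace = red ℓ m (-⟨(P v).coeff (n - 1), h⟩) := by
  obtain ⟨m', h1, h2⟩ := H.large hv m
  haveI := nontriv (ℓ := ℓ) (show 0 < m' by omega)
  obtain ⟨h, e⟩ := (H.mat m' v hv h2).frobenius σ hσ (n - 1)
  refine ⟨h, ?_⟩
  rw [← H.agree h1.le, trace_coeff' H.pos, e, map_neg, trans_red, map_neg]

/-- the traces do not see the inertia groups outside `S` -/
theorem Sys.inert (H : Sys S P L ρ D) {v : HeightOneSpectrum (𝓞 K)} (hv : v ∉ S) {τ : GK K}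
    (hτ : IsInert v τ) (m : ℕ) (g : GK K) : (ρ m (g * τ) : Matrix (Fin n) (Fin n) (ZQ ℓ m)).trace =
      (ρ m g : Matrix (Fin n) (Fin n) (ZQ ℓ m)).trace := by
  obtain ⟨m', h1, h2⟩ := H.large hv m
  rw [← H.agree h1.le, ← H.agree h1.le, map_mul, (H.mat m' v hv h2).unramified τ hτ, mul_one]

theorem Sys.approx (H : Sys S P L ρ D) (g : GK K) (m : ℕ) : ∃ b : Zbar ℓ, (b : PadicAlgCl ℓ) ∈ L ∧
    red ℓ m b = (ρ m g : Matrix (Fin n) (Fin n) (ZQ ℓ m)).trace := by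
  obtain ⟨v, hv, σ, hσ, e⟩ := Pool.Agent.X320.DS.exists_frob_coset (ρ m).ker (H.opn m) g⁻¹ S H.fin
  rw [QuotientGroup.eq, inv_inv, MonoidHom.mem_ker, map_mul, map_inv, mul_inv_eq_one] at e
  obtain ⟨h, e2⟩ := H.frob_trace hv hσ m
  refine ⟨-⟨(P v).coeff (n - 1), h⟩, ?_, ?_⟩
  · exact L.neg_mem (H.coeff v hv _)
  · rw [← e2, e]

/-- **The limit of the traces.** -/
theorem Sys.limit [FiniteDimensional ℚ_[ℓ] L] (H : Sys S P L ρ D) (g : GK K) : ∃ t : Zbar ℓ,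
    ∀ m, red ℓ m t = (ρ m g : Matrix (Fin n) (Fin n) (ZQ ℓ m)).trace := by
  choose b hbL hb using H.approx g
  have hred : ∀ m m' : ℕ, m ≤ m' → red ℓ m (b m') = red ℓ m (b m) := by
    intro m m' h
    rw [← trans_red h, hb, hb, H.agree h]
  have hc : CauchySeq fun m => (b m : PadicAlgCl ℓ) := by
    refine cauchySeq_of_le_tendsto_0 (fun N => (ℓ : ℝ)⁻¹ ^ N) (fun p q N hp hq => ?_)
      (tendsto_pow_atTop_nhds_zero_of_lt_one (inv_nonneg (ℓ := ℓ)) inv_lt_one)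
    rw [dist_eq_norm]
    exact (red_eq N (b p) (b q)).1 ((hred N p hp).trans (hred N q hq).symm)
  obtain ⟨t, htL, ht⟩ := cauchySeq_tendsto_of_isComplete (Submodule.complete_of_finiteDimensional L) hbL hc
  have ht1 : ‖t‖ ≤ 1 := le_of_tendsto' ht.norm fun m => (b m).2
  refine ⟨⟨t, ht1⟩, fun m => ?_⟩
  rw [← hb m, red_eq]
  refine le_of_tendsto (tendsto_norm.comp (ht.sub_const ((b m : Zbar ℓ) : PadicAlgCl ℓ))) ?_
  filter_upwards [eventually_ge_atTop m] with p hp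
  exact (red_eq m (b p) (b m)).1 (hred m p hp)

end Pool.Agent.H498.BG
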