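import Pool.Agent.H498.BG.AlgRecon
import Pool.Graph.R_pool_sql_team_seeded_64922ed1.X320.DS.Trace

/-! A function on a group, of finite rank, whose values on powers are power sums, is the trace of a
representation. -/

set_option autoImplicit false
set_option linter.all false

namespace Pool.Agent.H498.BG

open Pool.Agent.X320.DS (Stable Semisimple toEnd alg stable_alg toEnd_apply)

variable {G : Type*} [Group G] {k : Type*} [Field k]

/-- the linear extension of a function on the group to the group algebra -/
noncomputable def hat (T : G → k) : MonoidAlgebra k G →ₗ[k] k :=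
  (Finsupp.linearCombination k T) ∘ₗ (MonoidAlgebra.coeffLinearEquiv k).toLinearMap

theorem hat_single (T : G → k) (g : G) (c : k) : hat T (MonoidAlgebra.single g c) = c * T g := by
  simp [hat]

theorem rank_decomp (T : G → k) (N : ℕ)
    (hN : ∀ g h : Fin (N + 1) → G, (Matrix.of fun i j => T (g i * h j)).det = 0) :
    ∃ (r : ℕ) (h : Fin r → G) (u : G → Fin r → k), ∀ x y, T (x * y) = ∑ j, T (x * h j) * u y j := by
  classical
  have hex : ∃ s : ℕ, ¬ ∃ g h : Fin s → G, (Matrix.of fun i j => T (g i * h j)).det ≠ 0 :=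
    ⟨N + 1, fun ⟨g, h, hgh⟩ => hgh (hN g h)⟩
  obtain ⟨r, hr⟩ : ∃ r, Nat.find hex = r + 1 := by
    refine Nat.exists_eq_succ_of_ne_zero fun h0 => ?_
    have := Nat.find_spec hex
    rw [h0] at this
    apply this
    refine ⟨fun i => i.elim0, fun i => i.elim0, ?_⟩
    rw [Matrix.det_isEmpty]
    exact one_ne_zero
  have h1 := Nat.find_spec hex
  rw [hr] at h1
  push Not at h1
  have h2 := Nat.find_min hex (m := r) (by omega)
  push Not at h2
  obtain ⟨g, h, hgh⟩ := h2
  set M : Matrix (Fin r) (Fin r) k := Matrix.of fun i j => T (g i * h j) with hM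
  haveI : Invertible M := M.invertibleOfIsUnitDet (isUnit_iff_ne_zero.2 hgh)
  refine ⟨r, h, fun y j => ∑ i, (⅟M) j i * T (g i * y), fun x y => ?_⟩
  set B : Matrix (Fin r) (Fin 1) k := Matrix.of fun i _ => T (g i * y) with hB
  set C : Matrix (Fin 1) (Fin r) k := Matrix.of fun _ j => T (x * h j) with hC
  set D : Matrix (Fin 1) (Fin 1) k := Matrix.of fun _ _ => T (x * y) with hD
  have h3 : (Matrix.fromBlocks M B C D).det = 0 := by
    have h4 := h1 (Fin.append g ![x]) (Fin.append h ![y])
    rw [← Matrix.det_submatrix_equiv_self finSumFinEquiv] at h4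
    rw [← h4]
    congr 1
    ext i j
    rcases i with i | i <;> rcases j with j | j <;>
      simp [hM, hB, hC, hD, Matrix.fromBlocks]
  rw [Matrix.det_fromBlocks₁₁] at h3
  have h5 : (D - C * ⅟M * B).det = 0 := (mul_eq_zero.1 h3).resolve_left hgh
  rw [Matrix.det_fin_one] at h5
  rw [Matrix.sub_apply, sub_eq_zero, Matrix.mul_assoc] at h5
  simp only [hD, hC, hB, Matrix.of_apply, Matrix.mul_apply] at h5
  exact h5

section
variable (T : G → k)

/-- right translation of functions -/
def actL (g : G) : (G → k) →ₗ[k] (G → k) := LinearMap.funLeft k k fun y => y * g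

/-- the span of the translates -/
def VS : Submodule k (G → k) := Submodule.span k (Set.range fun h : G => fun x => T (x * h))

theorem gen_mem (h : G) : (fun x => T (x * h)) ∈ VS T := Submodule.subset_span ⟨h, rfl⟩

theorem act_mem (g : G) : ∀ f ∈ VS T, actL g f ∈ VS T := by
  intro f hf
  refine Submodule.span_induction (p := fun f _ => actL g f ∈ VS T) ?_ ?_ ?_ ?_ hf
  · rintro _ ⟨h, rfl⟩
    have e : actL g (fun x => T (x * h)) = fun x => T (x * (g * h)) := by
      funext x
      show T (x * g * h) = _
      rw [mul_assoc]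
    rw [e]
    exact gen_mem T _
  · rw [map_zero]; exact Submodule.zero_mem _
  · intro a b _ _ ha hb
    rw [map_add]; exact Submodule.add_mem _ ha hb
  · intro c a _ ha
    rw [map_smul]; exact Submodule.smul_mem _ c ha

/-- the representation on the span of the translates -/
def rhoV : G →* Module.End k (VS T) where
  toFun g := (actL g).restrict (act_mem T g)
  map_one' := by
    apply LinearMap.ext
    intro f
    apply Subtype.ext
    funext x
    show f.1 (x * 1) = f.1 x
    rw [mul_one]
  map_mul' g g' := by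
    apply LinearMap.ext
    intro f
    apply Subtype.ext
    funext x
    show f.1 (x * (g * g')) = f.1 (x * g * g')
    rw [mul_assoc]

theorem rhoV_apply (g : G) (f : VS T) (x : G) : ((rhoV T g f : VS T) : G → k) x = f.1 (x * g) := rfl

/-- the action of the group algebra -/
noncomputable def piV : MonoidAlgebra k G →ₐ[k] Module.End k (VS T) :=
  MonoidAlgebra.lift k (Module.End k (VS T)) G (rhoV T)

theorem piV_single (g : G) (c : k) : piV T (MonoidAlgebra.single g c) = c • rhoV T g := by
  rw [piV, MonoidAlgebra.lift_single]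

/-- the trace on the endomorphism algebra -/
noncomputable def tE : Module.End k (VS T) →ₗ[k] k where
  toFun a := (a ⟨fun x => T (x * 1), gen_mem T 1⟩ : VS T).1 1
  map_add' a b := rfl
  map_smul' c a := rfl

theorem tE_piV (x : MonoidAlgebra k G) : tE T (piV T x) = hat T x := by
  induction x using MonoidAlgebra.induction_linear with
  | zero => rw [map_zero, map_zero, map_zero]
  | add x y hx hy => rw [map_add, map_add, hx, hy, map_add]
  | single g c =>
    rw [piV_single, map_smul, hat_single, smul_eq_mul]
    congr 1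
    show T (1 * g * 1) = T g
    rw [one_mul, mul_one]

theorem piV_gen (x : MonoidAlgebra k G) (h y : G) :
    ((piV T x ⟨fun z => T (z * h), gen_mem T h⟩ : VS T) : G → k) y =
      hat T (MonoidAlgebra.single y 1 * x * MonoidAlgebra.single h 1) := by
  induction x using MonoidAlgebra.induction_linear with
  | zero => rw [map_zero, mul_zero, zero_mul, map_zero]; rfl
  | add x z hx hz =>
    rw [map_add, mul_add, add_mul, map_add, ← hx, ← hz]
    rfl
  | single g c =>
    rw [piV_single, MonoidAlgebra.single_mul_single, MonoidAlgebra.single_mul_single, hat_single, one_mul, mul_one]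
    rfl

theorem hat_comm (hc : ∀ x y, T (x * y) = T (y * x)) (x y : MonoidAlgebra k G) : hat T (x * y) = hat T (y * x) := by
  induction x using MonoidAlgebra.induction_linear with
  | zero => rw [zero_mul, mul_zero]
  | add x z hx hz => rw [add_mul, mul_add, map_add, map_add, hx, hz]
  | single g c =>
    induction y using MonoidAlgebra.induction_linear with
    | zero => rw [zero_mul, mul_zero]
    | add x z hx hz => rw [add_mul, mul_add, map_add, map_add, hx, hz]
    | single h d =>
      rw [MonoidAlgebra.single_mul_single, MonoidAlgebra.single_mul_single, hat_single, hat_single, hc, mul_comm c d]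

end

/-- reconstruction, given a finite-dimensional module on which the radical acts as zero -/
theorem recon_aux [IsAlgClosed k] [CharZero k] (n : ℕ) (T : G → k) (h1 : T 1 = n)
    (hc : ∀ x y, T (x * y) = T (y * x)) (V : Type*) [AddCommGroup V] [Module k V] [FiniteDimensional k V]
    (π : MonoidAlgebra k G →ₐ[k] Module.End k V) (tE : Module.End k V →ₗ[k] k)
    (htE : ∀ x, tE (π x) = hat T x) (hnd' : ∀ x, (∀ y, hat T (x * y) = 0) → π x = 0)
    (hp : ∀ x : MonoidAlgebra k G, ∃ β : Fin n → k, ∀ j, 0 < j → hat T (x ^ j) = ∑ i, β i ^ j) :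
    ∃ r : G →* GL (Fin n) k, Semisimple r ∧ ∀ g, (r g : Matrix (Fin n) (Fin n) k).trace = T g := by
  classical
  let A := π.range
  let t : A →ₗ[k] k := tE ∘ₗ A.val.toLinearMap
  have ht : ∀ x : MonoidAlgebra k G, ∀ h : π x ∈ A, t ⟨π x, h⟩ = hat T x := fun x _ => htE x
  have hsurj : ∀ a : A, ∃ x, ∃ h : π x ∈ A, a = ⟨π x, h⟩ := by
    rintro ⟨a, x, rfl⟩
    exact ⟨x, ⟨x, rfl⟩, rfl⟩
  have htc : ∀ a b, t (a * b) = t (b * a) := by
    intro a b
    obtain ⟨x, hx, rfl⟩ := hsurj a
    obtain ⟨y, hy, rfl⟩ := hsurj b
    have e : ∀ x y : MonoidAlgebra k G, ∀ hx hy, t ((⟨π x, hx⟩ : A) * ⟨π y, hy⟩) = hat T (x * y) := by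
      intro x y hx hy
      rw [← htE, map_mul π]
      rfl
    rw [e, e, hat_comm T hc]
  have hnd : ∀ a, (∀ b, t (a * b) = 0) → a = 0 := by
    intro a ha
    obtain ⟨x, hx, rfl⟩ := hsurj a
    apply Subtype.ext
    refine hnd' x fun y => ?_
    have h2 := ha ⟨π y, ⟨y, rfl⟩⟩
    rw [← h2, ← htE, map_mul π]
    rfl
  have ht1 : t 1 = n := by
    have h2 : t 1 = hat T 1 := by
      rw [← htE, map_one π]
      rfl
    rw [h2, MonoidAlgebra.one_def, hat_single, h1, one_mul]
  have htp : ∀ a, ∃ β : Fin n → k, ∀ j, 0 < j → t (a ^ j) = ∑ i, β i ^ j := by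
    intro a
    obtain ⟨x, hx, rfl⟩ := hsurj a
    obtain ⟨β, hβ⟩ := hp x
    refine ⟨β, fun j hj => ?_⟩
    rw [← hβ j hj, ← htE, map_pow π]
    rfl
  obtain ⟨φ, hφ1, hφ2⟩ := alg_recon (k := k) (A := A) (n := n) t htc hnd ht1 htp
  haveI hss := semisimple_of_trace (k := k) (A := A) (n := n) t hnd htp
  -- the representation of the group
  let π' : MonoidAlgebra k G →ₐ[k] A := π.rangeRestrict
  let ψ : G →* Matrix (Fin n) (Fin n) k :=
    ((φ : A →* Matrix (Fin n) (Fin n) k).comp (π' : MonoidAlgebra k G →* A)).comp (MonoidAlgebra.of k G)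
  let r : G →* GL (Fin n) k := ψ.toHomUnits
  have hr : ∀ g, (r g : Matrix (Fin n) (Fin n) k) = φ (π' (MonoidAlgebra.single g 1)) := fun g => rfl
  refine ⟨r, ?_, ?_⟩
  · -- semisimplicity
    let Φ : A →+* Module.End k (Fin n → k) :=
      (Matrix.toLinAlgEquiv' (R := k) (n := Fin n)).toRingEquiv.toRingHom.comp φ
    have hΦ : ∀ a w, Φ a w = (φ a).mulVec w := fun a w => rfl
    have hΦs : ∀ (c : k) a, Φ (c • a) = c • Φ a := by
      intro c a
      apply LinearMap.ext
      intro w
      rw [hΦ, hφ1, LinearMap.smul_apply, hΦ, Matrix.smul_mulVec]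
    have hst : ∀ W : Submodule k (Fin n → k), Stable r W ↔ ∀ a : A, ∀ w ∈ W, (φ a).mulVec w ∈ W := by
      intro W
      constructor
      · intro hW a
        obtain ⟨x, hx, rfl⟩ := hsurj a
        have e : (⟨π x, hx⟩ : A) = π' x := rfl
        rw [e]
        clear e hx
        induction x using MonoidAlgebra.induction_linear with
        | zero =>
          intro w hw
          rw [map_zero, map_zero, Matrix.zero_mulVec]
          exact W.zero_mem
        | add x y hx hy =>
          intro w hw
          rw [map_add, map_add, Matrix.add_mulVec]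
          exact W.add_mem (hx w hw) (hy w hw)
        | single g c =>
          intro w hw
          have e : (MonoidAlgebra.single g c : MonoidAlgebra k G) = c • MonoidAlgebra.single g 1 := by
            rw [MonoidAlgebra.smul_single, smul_eq_mul, mul_one]
          rw [e, map_smul, hφ1, Matrix.smul_mulVec]
          exact W.smul_mem _ (hW g w hw)
      · intro hW g w hw
        rw [hr]
        exact hW _ w hw
    letI : Module A (Fin n → k) := Module.compHom (Fin n → k) Φ
    have hsm : ∀ (a : A) (w : Fin n → k), a • w = (φ a).mulVec w := fun a w => rfl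
    haveI : IsSemisimpleModule A (Fin n → k) := inferInstance
    intro W hW
    have hW' := (hst W).1 hW
    let WA : Submodule A (Fin n → k) :=
      { carrier := W
        add_mem' := fun ha hb => W.add_mem ha hb
        zero_mem' := W.zero_mem
        smul_mem' := fun a w hw => hW' a w hw }
    obtain ⟨WB, hWB⟩ := exists_isCompl WA
    have halg : ∀ (c : k) (w : Fin n → k), c • w = (c • (1 : A)) • w := by
      intro c w
      rw [hsm, hφ1, map_one, Matrix.smul_mulVec, Matrix.one_mulVec]
    let W' : Submodule k (Fin n → k) :=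
      { carrier := WB
        add_mem' := fun ha hb => WB.add_mem ha hb
        zero_mem' := WB.zero_mem
        smul_mem' := fun c w hw => by
          rw [halg]
          exact WB.smul_mem _ hw }
    refine ⟨W', (hst W').2 fun a w hw => WB.smul_mem a hw, ?_, ?_⟩
    · rw [Submodule.disjoint_def]
      intro w hw hw'
      exact Submodule.disjoint_def.1 hWB.1 w hw hw'
    · rw [codisjoint_iff, eq_top_iff]
      intro w _
      have h2 : w ∈ WA ⊔ WB := by
        rw [codisjoint_iff.1 hWB.2]
        trivial
      obtain ⟨y, hy, z, hz, rfl⟩ := Submodule.mem_sup.1 h2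
      exact Submodule.mem_sup.2 ⟨y, hy, z, hz, rfl⟩
  · intro g
    rw [hr, hφ2]
    have h2 : t (π' (MonoidAlgebra.single g 1)) = hat T (MonoidAlgebra.single g 1) := htE _
    rw [h2, hat_single, one_mul]

/-- **Reconstruction of a representation from its trace.** -/
theorem recon [IsAlgClosed k] [CharZero k] (n : ℕ) (T : G → k) (h1 : T 1 = n) (hc : ∀ x y, T (x * y) = T (y * x))
    (N : ℕ) (hN : ∀ g h : Fin (N + 1) → G, (Matrix.of fun i j => T (g i * h j)).det = 0)
    (hp : ∀ x : MonoidAlgebra k G, ∃ β : Fin n → k, ∀ j, 0 < j → hat T (x ^ j) = ∑ i, β i ^ j) :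
    ∃ r : G →* GL (Fin n) k, Semisimple r ∧ ∀ g, (r g : Matrix (Fin n) (Fin n) k).trace = T g := by
  classical
  haveI hfd : FiniteDimensional k (VS T) := by
    obtain ⟨r, h, u, hu⟩ := rank_decomp T N hN
    have h2 : VS T ≤ Submodule.span k (Set.range fun j : Fin r => fun x => T (x * h j)) := by
      refine Submodule.span_le.2 ?_
      rintro _ ⟨y, rfl⟩
      have e : (fun x => T (x * y)) = ∑ j, u y j • fun x => T (x * h j) := by
        funext x
        rw [hu, Finset.sum_apply]
        exact Finset.sum_congr rfl fun j _ => by rw [Pi.smul_apply, smul_eq_mul, mul_comm]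
      show (fun x => T (x * y)) ∈ _
      rw [e]
      exact Submodule.sum_mem _ fun j _ => Submodule.smul_mem _ _ (Submodule.subset_span ⟨j, rfl⟩)
    haveI : FiniteDimensional k (Submodule.span k (Set.range fun j : Fin r => fun x => T (x * h j))) :=
      FiniteDimensional.span_of_finite k (Set.finite_range _)
    exact Submodule.finiteDimensional_of_le h2
  refine recon_aux n T h1 hc (VS T) (piV T) (tE T) (tE_piV T) (fun x hx => ?_) hp
  apply LinearMap.ext
  rintro ⟨f, hf⟩
  rw [LinearMap.zero_apply]
  refine Submodule.span_induction (p := fun f hf => piV T x ⟨f, hf⟩ = 0) ?_ ?_ ?_ ?_ hf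
  · rintro _ ⟨h, rfl⟩
    apply Subtype.ext
    funext y
    rw [piV_gen]
    have h3 := hx (MonoidAlgebra.single h 1 * MonoidAlgebra.single y 1)
    rw [mul_assoc, hat_comm T hc, mul_assoc]
    exact h3
  · exact map_zero _
  · intro a b ha' hb' ha hb
    have : (⟨a + b, Submodule.add_mem _ ha' hb'⟩ : VS T) = ⟨a, ha'⟩ + ⟨b, hb'⟩ := rfl
    rw [this, map_add, ha, hb, add_zero]
  · intro c a ha' ha
    have : (⟨c • a, Submodule.smul_mem _ _ ha'⟩ : VS T) = c • ⟨a, ha'⟩ := rfl
    rw [this, map_smul, ha, smul_zero]

end Pool.Agent.H498.BG
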