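import Pool.Agent.H498.BG.Greedy
import Pool.Agent.H498.BG.Recon
import Pool.Agent.H498.BG.Eig

/-! Limits of Galois representations modulo the powers of `ℓ` which are congruent at most places. -/

set_option autoImplicit false
set_option linter.all false

namespace Pool.Agent.H498.BG

open Topology Filter NumberField IsDedekindDomain Polynomial
open Pool.Agent.W401.Cheb
open Pool.Agent.W528.Ord (dens_mono dens_nonneg dens_or)
open Pool.Agent.X320.DS (Stable Semisimple)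

/-- the ring of integers of `ℚ̄_ℓ` -/
noncomputable def Zbar (ℓ : ℕ) [Fact ℓ.Prime] : Subring (PadicAlgCl ℓ) where
  carrier := {x | ‖x‖ ≤ 1}
  mul_mem' {a b} ha hb := by
    show ‖a * b‖ ≤ 1
    rw [norm_mul]
    exact mul_le_one₀ ha (norm_nonneg _) hb
  one_mem' := by show ‖(1 : PadicAlgCl ℓ)‖ ≤ 1; rw [norm_one]
  add_mem' {a b} ha hb := (PadicAlgCl.isNonarchimedean ℓ a b).trans (max_le ha hb)
  zero_mem' := by show ‖(0 : PadicAlgCl ℓ)‖ ≤ 1; rw [norm_zero]; exact zero_le_one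
  neg_mem' {a} ha := by show ‖-a‖ ≤ 1; rw [norm_neg]; exact ha

section
variable (ℓ : ℕ) [hℓ : Fact ℓ.Prime]

/-- the quotient of the ring of integers by `ℓ ^ m` -/
noncomputable abbrev ZQ (m : ℕ) : Type := Zbar ℓ ⧸ Ideal.span {(ℓ : Zbar ℓ) ^ m}

/-- reduction modulo `ℓ ^ m` -/
noncomputable abbrev red (m : ℕ) : Zbar ℓ →+* ZQ ℓ m := Ideal.Quotient.mk _

variable {ℓ}

theorem norm_ell : ‖((ℓ : Zbar ℓ) : PadicAlgCl ℓ)‖ = (ℓ : ℝ)⁻¹ := by
  have h := PadicAlgCl.valuation_p ℓ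
  have h2 := congrArg (fun x : NNReal => (x : ℝ)) h
  simp only [PadicAlgCl.valuation_coe] at h2
  have e : ((ℓ : Zbar ℓ) : PadicAlgCl ℓ) = (ℓ : PadicAlgCl ℓ) := by simp
  rw [e, h2]
  simp

theorem mem_I (m : ℕ) (x : Zbar ℓ) : x ∈ Ideal.span {(ℓ : Zbar ℓ) ^ m} ↔ ‖(x : PadicAlgCl ℓ)‖ ≤ (ℓ : ℝ)⁻¹ ^ m := by
  rw [Ideal.mem_span_singleton]
  constructor
  · rintro ⟨c, rfl⟩
    rw [Subring.coe_mul, Subring.coe_pow, norm_mul, norm_pow, norm_ell]
    exact mul_le_of_le_one_right (by positivity) c.2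
  · intro h
    have h0 : ((ℓ : Zbar ℓ) : PadicAlgCl ℓ) ≠ 0 := by
      rw [← norm_ne_zero_iff, norm_ell]
      have : (ℓ : ℝ) ≠ 0 := by exact_mod_cast hℓ.out.ne_zero
      exact inv_ne_zero this
    refine ⟨⟨(x : PadicAlgCl ℓ) / ((ℓ : Zbar ℓ) : PadicAlgCl ℓ) ^ m, ?_⟩, ?_⟩
    · show ‖_‖ ≤ 1
      rw [norm_div, norm_pow, norm_ell]
      exact div_le_one_of_le₀ h (by positivity)
    · apply Subtype.ext
      rw [Subring.coe_mul, Subring.coe_pow]
      rw [mul_div_cancel₀ _ (pow_ne_zero _ h0)]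

theorem red_eq (m : ℕ) (x y : Zbar ℓ) : red ℓ m x = red ℓ m y ↔ ‖(x : PadicAlgCl ℓ) - y‖ ≤ (ℓ : ℝ)⁻¹ ^ m := by
  rw [Ideal.Quotient.eq, mem_I]
  rfl

theorem inv_lt_one : (ℓ : ℝ)⁻¹ < 1 := by
  have : (1 : ℝ) < ℓ := by exact_mod_cast hℓ.out.one_lt
  exact inv_lt_one_of_one_lt₀ this

theorem inv_nonneg : (0 : ℝ) ≤ (ℓ : ℝ)⁻¹ := by positivity

/-- transition maps -/
theorem span_le {m m' : ℕ} (h : m ≤ m') : Ideal.span {(ℓ : Zbar ℓ) ^ m'} ≤ Ideal.span {(ℓ : Zbar ℓ) ^ m} :=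
  Ideal.span_singleton_le_span_singleton.2 (pow_dvd_pow _ h)

/-- transition maps -/
noncomputable def trans {m m' : ℕ} (h : m ≤ m') : ZQ ℓ m' →+* ZQ ℓ m := Ideal.Quotient.factor (span_le h)

theorem trans_red {m m' : ℕ} (h : m ≤ m') (x : Zbar ℓ) : trans h (red ℓ m' x) = red ℓ m x := rfl

instance preval : PreValuationRing (Zbar ℓ) := by
  rw [PreValuationRing.iff_dvd_total]
  constructor
  intro a b
  have key : ∀ a b : Zbar ℓ, ‖(b : PadicAlgCl ℓ)‖ ≤ ‖(a : PadicAlgCl ℓ)‖ → a ∣ b := by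
    intro a b h
    by_cases ha : (a : PadicAlgCl ℓ) = 0
    · rw [ha, norm_zero] at h
      have hb : b = 0 := Subtype.ext (norm_eq_zero.1 (le_antisymm h (norm_nonneg _)))
      rw [hb]
      exact dvd_zero _
    · refine ⟨⟨(b : PadicAlgCl ℓ) / a, ?_⟩, ?_⟩
      · show ‖_‖ ≤ 1
        rw [norm_div]
        exact div_le_one_of_le₀ h (norm_nonneg _)
      · apply Subtype.ext
        rw [Subring.coe_mul, mul_div_cancel₀ _ ha]
  rcases le_total ‖(b : PadicAlgCl ℓ)‖ ‖(a : PadicAlgCl ℓ)‖ with h | h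
  · exact Or.inl (key a b h)
  · exact Or.inr (key b a h)

instance prevalQ (m : ℕ) : PreValuationRing (ZQ ℓ m) :=
  Function.Surjective.preValuationRing (R := Zbar ℓ) (red ℓ m).toMulHom Ideal.Quotient.mk_surjective

/-- an element which is zero modulo all powers of `ℓ` -/
theorem eq_of_red {x y : Zbar ℓ} (h : ∀ m, red ℓ m x = red ℓ m y) : x = y := by
  apply Subtype.ext
  rw [← sub_eq_zero, ← norm_eq_zero]
  refine le_antisymm ?_ (norm_nonneg _)
  refine ge_of_tendsto' (tendsto_pow_atTop_nhds_zero_of_lt_one (inv_nonneg (ℓ := ℓ)) inv_lt_one) fun m => ?_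
  exact (red_eq m x y).1 (h m)

end

section
variable {K : Type} [Field K] [NumberField K]

/-- the upper natural density of a set of places -/
noncomputable def upperDensity (D : Set (HeightOneSpectrum (𝓞 K))) : ℝ :=
  limsup (dens fun v => v ∈ D) atTop

theorem dens_le_all (D : Set (HeightOneSpectrum (𝓞 K))) (N : ℕ) :
    dens (fun v => v ∈ D) N ≤ dens (fun _ : HeightOneSpectrum (𝓞 K) => True) N :=
  dens_mono (fun _ _ => trivial) N

theorem bdd (D : Set (HeightOneSpectrum (𝓞 K))) :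
    IsBoundedUnder (· ≤ ·) atTop (dens fun v => v ∈ D) := by
  have h1 := (Pool.Agent.X320.DS.dens_all (K := K)).eventually (gt_mem_nhds (show (1 : ℝ) < 2 by norm_num))
  refine ⟨2, ?_⟩
  rw [eventually_map]
  filter_upwards [h1] with N hN
  exact (dens_le_all D N).trans hN.le

theorem eventually_lt {D : Set (HeightOneSpectrum (𝓞 K))} {δ : ℝ} (h : upperDensity D < δ) :
    ∀ᶠ N in atTop, dens (fun v => v ∈ D) N < δ :=
  eventually_lt_of_limsup_lt h (bdd D)

theorem upperDensity_nonneg (D : Set (HeightOneSpectrum (𝓞 K))) : 0 ≤ upperDensity D :=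
  le_limsup_of_frequently_le (Frequently.of_forall fun N => dens_nonneg _ N) (bdd D)

end

end Pool.Agent.H498.BG
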