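import Mathlib

/-! The sequences of power sums of `n` elements of an algebraically closed field of characteristic zero are
closed under limits. -/

set_option autoImplicit false
set_option linter.all false

namespace Pool.Agent.H498.BG

open Topology Filter Polynomial

variable {k : Type*} [NormedField k] [CharZero k]

/-- the elementary symmetric functions converge; the limit depends on the limits of the power sums only -/
theorem esymm_limit (n : ℕ) (p : ℕ → k) (j : ℕ) :
    ∃ E : k, ∀ (I : Type) (l : Filter I) (α : I → Fin n → k),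
      (∀ j, 0 < j → Tendsto (fun m => ∑ i, α m i ^ j) l (𝓝 (p j))) →
      Tendsto (fun m => MvPolynomial.aeval (α m) (MvPolynomial.esymm (Fin n) k j)) l (𝓝 E) := by
  induction j using Nat.strong_induction_on with
  | _ j ih =>
    rcases Nat.eq_zero_or_pos j with rfl | hj
    · refine ⟨1, fun I l α h => ?_⟩
      simp only [MvPolynomial.esymm_zero, map_one]
      exact tendsto_const_nhds
    · choose! E hE using ih
      have hj0 : (j : k) ≠ 0 := by exact_mod_cast hj.ne'
      refine ⟨(j : k)⁻¹ * ((-1) ^ (j + 1) * ∑ a ∈ Finset.HasAntidiagonal.antidiagonal j with a.1 < j,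
            (-1) ^ a.1 * E a.1 * p a.2), fun I l α h => ?_⟩
      have key : ∀ m, MvPolynomial.aeval (α m) (MvPolynomial.esymm (Fin n) k j) =
          (j : k)⁻¹ * ((-1) ^ (j + 1) * ∑ a ∈ Finset.HasAntidiagonal.antidiagonal j with a.1 < j,
            (-1) ^ a.1 * MvPolynomial.aeval (α m) (MvPolynomial.esymm (Fin n) k a.1) * ∑ i, α m i ^ a.2) := by
        intro m
        have h1 := congrArg (MvPolynomial.aeval (α m)) (MvPolynomial.mul_esymm_eq_sum (Fin n) k j)
        simp only [map_mul, map_natCast, map_pow, map_neg, map_one, map_sum, MvPolynomial.psum,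
          MvPolynomial.aeval_X] at h1
        rw [← h1, inv_mul_cancel_left₀ hj0]
      simp only [key]
      refine Tendsto.const_mul _ (Tendsto.const_mul _ (tendsto_finset_sum _ fun a ha => ?_))
      rw [Finset.mem_filter, Finset.HasAntidiagonal.mem_antidiagonal] at ha
      exact ((hE a.1 ha.2 I l α h).const_mul _).mul (h a.2 (by omega))

/-- a monic polynomial with given coefficients -/
theorem exists_esymm [IsAlgClosed k] (n : ℕ) (E : ℕ → k) (hE : E 0 = 1) :
    ∃ β : Fin n → k, ∀ j ≤ n, MvPolynomial.aeval β (MvPolynomial.esymm (Fin n) k j) = E j := by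
  set q : k[X] := ∑ i : Fin n, C ((-1) ^ (n - (i : ℕ)) * E (n - i)) * X ^ (i : ℕ) with hq
  have hdeg : q.degree < n := Polynomial.degree_sum_fin_lt _
  set Q : k[X] := X ^ n + q with hQ
  have hQm : Q.Monic := Polynomial.monic_X_pow_add hdeg
  have hQn : Q.natDegree = n := by
    apply Polynomial.natDegree_eq_of_degree_eq_some
    rw [hQ, Polynomial.degree_add_eq_left_of_degree_lt (by rw [Polynomial.degree_X_pow]; exact hdeg),
      Polynomial.degree_X_pow]
  have hcoeff : ∀ j ≤ n, Q.coeff (n - j) = (-1) ^ j * E j := by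
    intro j hj
    rcases Nat.eq_zero_or_pos j with rfl | hj0
    · rw [Nat.sub_zero, pow_zero, hE, mul_one]
      have := hQm.coeff_natDegree
      rwa [hQn] at this
    · rw [hQ, hq, Polynomial.coeff_add, Polynomial.coeff_X_pow, if_neg (by omega), zero_add,
        Polynomial.finset_sum_coeff]
      rw [Finset.sum_eq_single (⟨n - j, by omega⟩ : Fin n)]
      · simp only [Polynomial.coeff_C_mul_X_pow, if_true]
        have : n - (n - j) = j := by omega
        rw [this]
      · intro b _ hb
        rw [Polynomial.coeff_C_mul_X_pow, if_neg]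
        intro hbj
        exact hb (Fin.ext hbj.symm)
      · intro h
        exact absurd (Finset.mem_univ _) h
  have hcard : Q.roots.card = n := by
    rw [← hQn]
    exact (Polynomial.splits_iff_card_roots.mp (IsAlgClosed.splits Q))
  obtain ⟨β, hβ⟩ : ∃ β : Fin n → k, Q.roots = Finset.univ.val.map β := by
    have hl : Q.roots.toList.length = n := by rw [Multiset.length_toList, hcard]
    refine ⟨fun i => Q.roots.toList.get (i.cast hl.symm), ?_⟩
    rw [Fin.univ_val_map]
    conv_lhs => rw [← Multiset.coe_toList Q.roots]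
    congr 1
    apply List.ext_get
    · simp [hl]
    · intro i h1 h2
      simp
  refine ⟨β, fun j hj => ?_⟩
  rw [MvPolynomial.aeval_esymm_eq_multiset_esymm, ← hβ]
  have h1 := Polynomial.coeff_eq_esymm_roots_of_card (p := Q) (by rw [hcard, hQn]) (k := n - j)
    (by rw [hQn]; omega)
  rw [hQn, hQm.leadingCoeff, one_mul, hcoeff j hj] at h1
  have : n - (n - j) = j := by omega
  rw [this] at h1
  have h2 : ((-1 : k) ^ j) ≠ 0 := pow_ne_zero _ (neg_ne_zero.2 one_ne_zero)
  exact (mul_left_cancel₀ h2 h1).symm

/-- **limits of power sums are power sums** -/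
theorem psum_closed [IsAlgClosed k] (n : ℕ) (α : ℕ → Fin n → k) (p : ℕ → k)
    (h : ∀ j, 0 < j → Tendsto (fun m => ∑ i, α m i ^ j) atTop (𝓝 (p j))) :
    ∃ β : Fin n → k, ∀ j, 0 < j → p j = ∑ i, β i ^ j := by
  choose E hE' using esymm_limit n p
  have hE := fun j => hE' j ℕ atTop α h
  have hE0 : E 0 = 1 := by
    have h1 := hE 0
    simp only [MvPolynomial.esymm_zero, map_one] at h1
    exact tendsto_nhds_unique h1 tendsto_const_nhds
  obtain ⟨β, hβ⟩ := exists_esymm n E hE0
  refine ⟨β, fun j hj => ?_⟩
  obtain ⟨Ψ, hΨ⟩ := MvPolynomial.esymmAlgHom_surjective (σ := Fin n) (R := k) (n := n) (by simp)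
    ⟨MvPolynomial.psum (Fin n) k j, MvPolynomial.psum_isSymmetric (Fin n) k j⟩
  have hΨ' : MvPolynomial.aeval (fun i : Fin n => MvPolynomial.esymm (Fin n) k (i + 1)) Ψ =
      MvPolynomial.psum (Fin n) k j := by
    rw [← MvPolynomial.esymmAlgHom_apply, hΨ]
  have key : ∀ γ : Fin n → k, ∑ i, γ i ^ j =
      MvPolynomial.eval (fun i : Fin n => MvPolynomial.aeval γ (MvPolynomial.esymm (Fin n) k (i + 1))) Ψ := by
    intro γ
    have h1 := congrArg (MvPolynomial.aeval γ) hΨ'
    simp only [MvPolynomial.psum, map_sum, map_pow, MvPolynomial.aeval_X] at h1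
    rw [← h1, ← MvPolynomial.coe_aeval_eq_eval]
    change _ = (MvPolynomial.aeval _) Ψ
    rw [← AlgHom.comp_apply, MvPolynomial.comp_aeval]
  refine tendsto_nhds_unique (h j hj) ?_
  simp only [key]
  refine ((MvPolynomial.continuous_eval Ψ).tendsto _).comp ?_
  rw [tendsto_pi_nhds]
  intro i
  rw [hβ (i + 1) (by omega)]
  exact hE (i + 1)

end Pool.Agent.H498.BG
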