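import Pool.Graph.R_pool_sql_team_seeded_64922ed1.X320.DS.Frob

/-! Two independent quadratic characters of the absolute Galois group of a number field, and the density of
the places with given Frobenius elements in a finite quotient. -/

set_option autoImplicit false
set_option linter.all false

namespace Pool.Agent.H498.BG

open Topology Filter NumberField IsDedekindDomain
open Pool.Agent.W401.Cheb

section

variable {K : Type} [Field K] [NumberField K]

theorem infinite_places : Infinite (HeightOneSpectrum (𝓞 K)) := by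
  by_contra h
  rw [not_infinite_iff_finite] at h
  have h1 := Pool.Agent.X320.DS.dens_finite (K := K) Set.univ Set.finite_univ
  have h2 := Pool.Agent.X320.DS.dens_all (K := K)
  simp only [Set.mem_univ] at h1
  exact one_ne_zero (tendsto_nhds_unique h2 h1)

/-- an element with odd valuation is not a square -/
theorem not_square (v : HeightOneSpectrum (𝓞 K)) (a : K) (h : v.valuation K a = WithZero.exp (-1 : ℤ)) :
    ¬ IsSquare a := by
  rintro ⟨c, rfl⟩
  rw [map_mul] at h
  have hc : v.valuation K c ≠ 0 := by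
    intro h0
    rw [h0, mul_zero] at h
    exact WithZero.exp_ne_zero h.symm
  have h2 := congrArg WithZero.log h
  rw [WithZero.log_mul hc hc, WithZero.log_exp] at h2
  omega

variable (K) in
theorem exists_nonsquares : ∃ a b : 𝓞 K, ¬ IsSquare (a : K) ∧ ¬ IsSquare (b : K) ∧ ¬ IsSquare ((a * b : 𝓞 K) : K) := by
  haveI := infinite_places (K := K)
  obtain ⟨v, w, hvw⟩ := exists_pair_ne (HeightOneSpectrum (𝓞 K))
  obtain ⟨a, ha⟩ := v.intValuation_exists_uniformizer
  obtain ⟨x, hx⟩ := w.intValuation_exists_uniformizer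
  have hcop : IsCoprime (w.asIdeal ^ 2) v.asIdeal := by
    apply IsCoprime.pow_left
    rw [Ideal.isCoprime_iff_sup_eq]
    exact w.isMaximal.coprime_of_ne v.isMaximal (fun h => hvw (HeightOneSpectrum.ext h.symm))
  obtain ⟨e, he, f, hf, hef⟩ := Ideal.isCoprime_iff_exists.1 hcop
  set b : 𝓞 K := x * f + e with hb
  have hbv : v.valuation K (b : K) = 1 := by
    have h1 : b ∉ v.asIdeal := by
      intro h
      have h2 : e ∈ v.asIdeal := by
        have := v.asIdeal.sub_mem h (v.asIdeal.mul_mem_left x hf)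
        rwa [hb, add_sub_cancel_left] at this
      apply v.isPrime.ne_top
      rw [Ideal.eq_top_iff_one, ← hef]
      exact v.asIdeal.add_mem h2 hf
    exact (HeightOneSpectrum.valuation_eq_one_iff_notMem (K := K) v).2 h1
  have hbw : w.valuation K (b : K) = WithZero.exp (-1 : ℤ) := by
    rw [HeightOneSpectrum.valuation_of_algebraMap]
    have h1 : b = x + (1 - x) * e := by
      have : f = 1 - e := by rw [← hef]; ring
      rw [hb, this]
      ring
    have h2 : w.intValuation ((1 - x) * e) < w.intValuation x := by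
      rw [hx]
      have h3 := (w.intValuation_le_pow_iff_mem ((1 - x) * e) 2).2 (Ideal.mul_mem_left _ _ he)
      refine lt_of_le_of_lt h3 ?_
      rw [WithZero.exp_lt_exp]
      norm_num
    rw [h1, Valuation.map_add_eq_of_lt_left _ h2, hx]
  have hav : v.valuation K (a : K) = WithZero.exp (-1 : ℤ) := by
    rw [HeightOneSpectrum.valuation_of_algebraMap, ha]
  refine ⟨a, b, not_square v _ hav, not_square w _ hbw, not_square v _ ?_⟩
  have e : ((a * b : 𝓞 K) : K) = (a : K) * (b : K) := rfl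
  rw [e, map_mul, hav, hbv, mul_one]

/-- the quadratic character of a nonsquare -/
theorem exists_char (a' : 𝓞 K) (ha : ¬ IsSquare (a' : K)) : ∃ (s : AlgebraicClosure K) (χ : GK K →* ℤˣ), s ≠ 0 ∧
    s * s = algebraMap K (AlgebraicClosure K) (a' : K) ∧
    IsOpen (χ.ker : Set (GK K)) ∧ (∀ σ : GK K, σ s = ((χ σ : ℤ) : AlgebraicClosure K) * s) ∧ (∃ σ, χ σ = -1) ∧
    {v : HeightOneSpectrum (𝓞 K) | ∃ τ, IsInert v τ ∧ χ τ ≠ 1}.Finite := by
  classical
  set a : K := (a' : K) with ha'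
  obtain ⟨s, hs⟩ := IsAlgClosed.exists_eq_mul_self (algebraMap K (AlgebraicClosure K) a)
  have hs0 : s ≠ 0 := by
    rintro rfl
    rw [mul_zero] at hs
    have : a = 0 := (algebraMap K (AlgebraicClosure K)).injective (by rw [hs, map_zero])
    exact ha ⟨0, by rw [this, mul_zero]⟩
  have hσ : ∀ σ : GK K, σ s = s ∨ σ s = -s := by
    intro σ
    apply mul_self_eq_mul_self_iff.1
    rw [← map_mul, ← hs]
    exact σ.commutes a
  have h2 : ∀ ε : ℤˣ, ∀ ε' : ℤˣ, ((ε : ℤ) : AlgebraicClosure K) * s = ((ε' : ℤ) : AlgebraicClosure K) * s → ε = ε' := by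
    intro ε ε' h
    have := mul_right_cancel₀ hs0 h
    exact Units.ext (by exact_mod_cast this)
  have hex : ∀ σ : GK K, ∃ ε : ℤˣ, σ s = ((ε : ℤ) : AlgebraicClosure K) * s := by
    intro σ
    rcases hσ σ with h | h
    · exact ⟨1, by rw [h]; simp⟩
    · exact ⟨-1, by rw [h]; simp⟩
  choose c hc using hex
  let χ : GK K →* ℤˣ :=
    { toFun := c
      map_one' := h2 _ _ (by rw [← hc 1]; simp)
      map_mul' := fun σ τ => h2 _ _ (by
        rw [← hc]
        show σ (τ s) = _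
        rw [hc τ, map_mul, map_intCast, hc σ]
        push_cast
        ring) }
  refine ⟨s, χ, hs0, hs.symm, ?_, hc, ?_, ?_⟩
  · have h3 : (IntermediateField.adjoin K {s}).fixingSubgroup ≤ χ.ker := by
      intro σ hσ'
      rw [IntermediateField.mem_fixingSubgroup_iff] at hσ'
      have h4 := hσ' s (IntermediateField.mem_adjoin_simple_self K s)
      rw [MonoidHom.mem_ker]
      refine h2 _ _ ?_
      show ((c σ : ℤ) : AlgebraicClosure K) * s = _
      rw [← hc, h4]
      simp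
    haveI : FiniteDimensional K (IntermediateField.adjoin K {s}) :=
      IntermediateField.adjoin.finiteDimensional (Algebra.IsIntegral.isIntegral s)
    exact Subgroup.isOpen_mono h3 (IntermediateField.fixingSubgroup_isOpen _)
  · by_contra hcon
    push Not at hcon
    have h3 : ∀ σ : GK K, σ s = s := by
      intro σ
      rcases hσ σ with h | h
      · exact h
      · exact absurd (h2 (c σ) (-1) (by rw [← hc, h]; simp)) (hcon σ)
    have h4 : s ∈ (⊥ : IntermediateField K (AlgebraicClosure K)) := by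
      rw [← InfiniteGalois.fixedField_fixingSubgroup (⊥ : IntermediateField K (AlgebraicClosure K))]
      intro σ
      exact h3 σ.1
    obtain ⟨c, hc'⟩ := IntermediateField.mem_bot.1 h4
    apply ha
    refine ⟨c, (algebraMap K (AlgebraicClosure K)).injective ?_⟩
    rw [hs, map_mul, hc']
  · have ha0 : a' ≠ 0 := by
      rintro rfl
      exact ha ⟨0, by rw [ha']; simp⟩
    have h40 : Ideal.span {4 * a'} ≠ (0 : Ideal (𝓞 K)) := by
      rw [Ideal.zero_eq_bot, Ne, Ideal.span_singleton_eq_bot]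
      exact mul_ne_zero (by norm_num) ha0
    refine (Ideal.finite_factors h40).subset ?_
    rintro v ⟨τ, ⟨Q, hQ, hQv, hτ⟩, hχ⟩
    have hint : IsIntegral ℤ s := by
      have h5 : IsIntegral ℤ (s * s) := by
        rw [← hs]
        exact (a'.isIntegral_coe).map (IsScalarTower.toAlgHom ℤ K (AlgebraicClosure K))
      exact IsIntegral.of_pow (n := 2) two_pos (by rwa [sq])
    let s' : 𝓞 (AlgebraicClosure K) := ⟨s, hint⟩
    have h6 : τ • s' = -s' := by
      apply Subtype.ext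
      show τ s = -s
      rcases hσ τ with h | h
      · exfalso
        apply hχ
        show c τ = 1
        exact h2 (c τ) 1 (by rw [← hc, h]; simp)
      · exact h
    have h7 := hτ s'
    rw [h6] at h7
    have h8 : (4 : 𝓞 (AlgebraicClosure K)) * (s' * s') ∈ Q := by
      have e : (4 : 𝓞 (AlgebraicClosure K)) * (s' * s') = (-2 * s') * (-s' - s') := by ring
      rw [e]
      exact Q.mul_mem_left _ h7
    have h9 : algebraMap (𝓞 K) (𝓞 (AlgebraicClosure K)) (4 * a') ∈ Q := by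
      have e : algebraMap (𝓞 K) (𝓞 (AlgebraicClosure K)) (4 * a') = 4 * (s' * s') := by
        apply Subtype.ext
        show algebraMap K (AlgebraicClosure K) ((4 * a' : 𝓞 K) : K) = 4 * (s * s)
        have e : ((4 * a' : 𝓞 K) : K) = 4 * a := rfl
        rw [← hs, e, map_mul, map_ofNat]
      rw [e]
      exact h8
    have h10 : 4 * a' ∈ v.asIdeal := by
      rw [← hQv]
      exact h9
    show v.asIdeal ∣ Ideal.span {4 * a'}
    rw [Ideal.dvd_span_singleton]
    exact h10

theorem units_aux : ∀ x y z w ε₁ ε₂ : ℤˣ, z * w = -1 → ∃ i j k : Fin 2,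
    (-1) ^ (i : ℕ) * y ^ (j : ℕ) * z ^ (k : ℕ) = ε₁ ∧ x ^ (i : ℕ) * (-1) ^ (j : ℕ) * w ^ (k : ℕ) = ε₂ := by
  decide

/-- the quadratic characters `χ₁`, `χ₂` are independent -/
structure Indep2 (χ₁ χ₂ : GK K →* ℤˣ) : Prop where
  opn₁ : IsOpen (χ₁.ker : Set (GK K))
  opn₂ : IsOpen (χ₂.ker : Set (GK K))
  surj : ∀ ε₁ ε₂ : ℤˣ, ∃ σ, χ₁ σ = ε₁ ∧ χ₂ σ = ε₂
  fin : {v : HeightOneSpectrum (𝓞 K) | ∃ τ, IsInert v τ ∧ (χ₁ τ ≠ 1 ∨ χ₂ τ ≠ 1)}.Finite

variable (K) in
theorem exists_indep : ∃ χ₁ χ₂ : GK K →* ℤˣ, Indep2 χ₁ χ₂ := by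
  obtain ⟨a, b, ha, hb, hab⟩ := exists_nonsquares K
  obtain ⟨s, χ₁, hs0, hs, ho1, h1, ⟨σ, hσ⟩, hf1⟩ := exists_char a ha
  obtain ⟨t, χ₂, ht0, ht, ho2, h2, ⟨τ, hτ⟩, hf2⟩ := exists_char b hb
  obtain ⟨u, χ₃, hu0, hu, ho3, h3, ⟨ρ, hρ⟩, hf3⟩ := exists_char (a * b) hab
  have hst : u = s * t ∨ u = -(s * t) := by
    apply mul_self_eq_mul_self_iff.1
    have e : ((a * b : 𝓞 K) : K) = (a : K) * (b : K) := rfl
    rw [hu, e, map_mul, ← hs, ← ht]
    ring
  have h4 : ∀ σ, χ₃ σ = χ₁ σ * χ₂ σ := by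
    intro σ
    have e1 : σ (s * t) = ((χ₃ σ : ℤ) : AlgebraicClosure K) * (s * t) := by
      rcases hst with h | h
      · rw [← h]; exact h3 σ
      · have e : s * t = -u := by rw [h, neg_neg]
        rw [e, map_neg, h3 σ]
        ring
    rw [map_mul, h1, h2] at e1
    have e2 : ((((χ₁ σ * χ₂ σ : ℤˣ)) : ℤ) : AlgebraicClosure K) * (s * t) = ((χ₃ σ : ℤ) : AlgebraicClosure K) * (s * t) := by
      rw [← e1]
      push_cast
      ring
    have e3 := mul_right_cancel₀ (mul_ne_zero hs0 ht0) e2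
    exact (Units.ext (by exact_mod_cast e3)).symm
  refine ⟨χ₁, χ₂, ho1, ho2, ?_, (hf1.union hf2).subset (by
    rintro v ⟨τ, hτ, h | h⟩
    · exact Or.inl ⟨τ, hτ, h⟩
    · exact Or.inr ⟨τ, hτ, h⟩)⟩
  have h5 : χ₁ ρ * χ₂ ρ = -1 := by rw [← h4, hρ]
  intro ε₁ ε₂
  obtain ⟨i, j, k, e1, e2⟩ := units_aux (χ₂ σ) (χ₁ τ) (χ₁ ρ) (χ₂ ρ) ε₁ ε₂ h5
  refine ⟨σ ^ (i : ℕ) * τ ^ (j : ℕ) * ρ ^ (k : ℕ), ?_, ?_⟩
  · rw [map_mul, map_mul, map_pow, map_pow, map_pow, hσ, e1]
  · rw [map_mul, map_mul, map_pow, map_pow, map_pow, hτ, e2]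

/-- Chebotarev's theorem for a finite quotient -/
theorem dens_quot {Q : Type} [Group Q] [Finite Q] (θ : GK K →* Q) (hθ : IsOpen (θ.ker : Set (GK K)))
    (hsurj : Function.Surjective θ) (C : Set Q) (hC : ∀ q ∈ C, ∀ t, t * q * t⁻¹ ∈ C) :
    Tendsto (dens fun v : HeightOneSpectrum (𝓞 K) => ∃ σ, θ σ ∈ C ∧ IsFrob v σ) atTop
      (𝓝 ((C.ncard : ℝ) / (Nat.card Q : ℝ))) := by
  have key := Pool.Agent.W528.Ord.chebK K θ.ker hθ (θ ⁻¹' C)
    (fun σ hσ τ => by
      show θ _ ∈ C
      rw [map_mul, map_mul, map_inv]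
      exact hC _ hσ _)
    (fun σ hσ u hu => by
      show θ _ ∈ C
      rw [map_mul, (MonoidHom.mem_ker).1 hu, mul_one]
      exact hσ)
  let e : GK K ⧸ θ.ker ≃* Q := QuotientGroup.quotientKerEquivOfSurjective θ hsurj
  have h1 : ((QuotientGroup.mk : GK K → GK K ⧸ θ.ker) '' (θ ⁻¹' C)).ncard = C.ncard := by
    rw [← Set.ncard_image_of_injective _ e.injective]
    congr 1
    ext q
    constructor
    · rintro ⟨_, ⟨σ, hσ, rfl⟩, rfl⟩
      exact hσ
    · intro hq
      obtain ⟨σ, rfl⟩ := hsurj q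
      exact ⟨_, ⟨σ, hq, rfl⟩, rfl⟩
  have h2 : Nat.card (GK K ⧸ θ.ker) = Nat.card Q := Nat.card_congr e.toEquiv
  rw [h1, h2] at key
  exact key

end

end Pool.Agent.H498.BG
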