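import Pool.Agent.H498.BG.LimTrace
import Pool.Agent.H498.BG.Quad

/-! The bound for the density is optimal in dimension one. -/

set_option autoImplicit false
set_option linter.all false

namespace Pool.Agent.H498.BG

open Topology Filter NumberField IsDedekindDomain Polynomial
open Pool.Agent.W401.Cheb

variable {K : Type} [Field K] [NumberField K]

/-- every nonempty open set contains the inverse of a Frobenius element at a place outside a given finite set -/
theorem exists_frob_open (W : Set (GK K)) (hW : IsOpen W) (g : GK K) (hg : g ∈ W)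
    (T : Set (HeightOneSpectrum (𝓞 K))) (hT : T.Finite) : ∃ v ∉ T, ∃ σ, IsFrob v σ ∧ σ⁻¹ ∈ W := by
  have h1 : IsOpen ((fun x => g * x) ⁻¹' W) := hW.preimage (continuous_mul_left g)
  obtain ⟨U, hU⟩ := ProfiniteGrp.exist_openNormalSubgroup_sub_open_nhds_of_one h1
    (show (1 : GK K) ∈ (fun x => g * x) ⁻¹' W by simpa using hg)
  haveI : U.toSubgroup.Normal := U.isNormal'
  obtain ⟨v, hv, σ, hσ, e⟩ := Pool.Agent.X320.DS.exists_frob_coset U.toSubgroup U.isOpen' g T hT
  refine ⟨v, hv, σ, hσ, ?_⟩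
  rw [eq_comm, QuotientGroup.eq] at e
  have h2 := hU e
  simpa using h2

/-- the scalar matrices `±1` -/
noncomputable def pm (R : Type) [CommRing R] : ℤˣ →* GL (Fin 1) R :=
  Units.map (Int.castRingHom (Matrix (Fin 1) (Fin 1) R)).toMonoidHom

theorem pm_charpoly (R : Type) [CommRing R] (ε : ℤˣ) :
    (pm R ε : Matrix (Fin 1) (Fin 1) R).charpoly = X - C ((ε : ℤ) : R) := by
  have e : (pm R ε : Matrix (Fin 1) (Fin 1) R) = (((ε : ℤ) : Matrix (Fin 1) (Fin 1) R)) := rfl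
  rw [e, Matrix.charpoly, Matrix.det_unique, Matrix.charmatrix_apply_eq]
  congr 2

theorem charpoly_one {R : Type} [CommRing R] (M : Matrix (Fin 1) (Fin 1) R) (c : R) (h : M.charpoly = X - C c) :
    M = Matrix.of fun _ _ => c := by
  rw [Matrix.charpoly, Matrix.det_unique, Matrix.charmatrix_apply_eq] at h
  have h2 : C (M default default) = C c := by
    linear_combination -h
  ext i j
  rw [Subsingleton.elim i default, Subsingleton.elim j default]
  exact C_injective h2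

variable (K) in
/-- **The bound `1 / (4 n ^ 2)` is optimal for `n = 1`.** -/
theorem sharp (ℓ : ℕ) [Fact ℓ.Prime] : ∃ (S : Set (HeightOneSpectrum (𝓞 K))) (P : HeightOneSpectrum (𝓞 K) → ℚ[X])
    (ρ : (m : ℕ) → GK K →* GL (Fin 1) (ZQ ℓ m)) (D : ℕ → Set (HeightOneSpectrum (𝓞 K))),
    S.Finite ∧ (∀ m, IsOpen ((ρ m).ker : Set (GK K))) ∧ (∀ m, upperDensity (D m) = 1 / 4) ∧
    (∀ m, ∀ v ∉ S, v ∉ D m → MatchesMod m (ρ m) ((P v).map (algebraMap ℚ (PadicAlgCl ℓ))) v) ∧
    (∀ v ∉ S, {m | v ∉ D m}.Infinite) ∧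
    ¬ ∃ r : GK K →* GL (Fin 1) (PadicAlgCl ℓ), Continuous r ∧ ∀ v ∉ S, ∀ σ, IsFrob v σ →
      (r σ : Matrix (Fin 1) (Fin 1) (PadicAlgCl ℓ)).charpoly = (P v).map (algebraMap ℚ (PadicAlgCl ℓ)) := by
  classical
  obtain ⟨χ₁, χ₂, H⟩ := exists_indep K
  set S : Set (HeightOneSpectrum (𝓞 K)) := {v | ∃ τ, IsInert v τ ∧ (χ₁ τ ≠ 1 ∨ χ₂ τ ≠ 1)} with hS
  have hin : ∀ v ∉ S, ∀ τ, IsInert v τ → χ₁ τ = 1 ∧ χ₂ τ = 1 := by
    intro v hv τ hτ
    by_contra hcon
    apply hv
    refine ⟨τ, hτ, ?_⟩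
    by_contra h2
    push Not at h2
    exact hcon h2
  have huniq : ∀ v ∉ S, ∀ σ τ, IsFrob v σ → IsFrob v τ → χ₁ τ = χ₁ σ ∧ χ₂ τ = χ₂ σ := by
    intro v hv σ τ hσ hτ
    obtain ⟨ρ, i, hi, rfl⟩ := (Pool.Agent.W401.Frob.main K).2.1 v σ τ hσ hτ
    obtain ⟨h1, h2⟩ := hin v hv i hi
    simp only [map_mul, map_inv, h1, h2, mul_one]
    constructor <;> rw [mul_comm, inv_mul_cancel_left]
  let θ : GK K →* ℤˣ × ℤˣ := χ₁.prod χ₂
  have hθo : IsOpen (θ.ker : Set (GK K)) := by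
    have : (θ.ker : Set (GK K)) = (χ₁.ker : Set (GK K)) ∩ χ₂.ker := by
      rw [MonoidHom.ker_prod, Subgroup.coe_inf]
    rw [this]
    exact H.opn₁.inter H.opn₂
  have hθs : Function.Surjective θ := by
    rintro ⟨a, b⟩
    obtain ⟨σ, h1, h2⟩ := H.surj a b
    exact ⟨σ, Prod.ext h1 h2⟩
  have hdens : ∀ q : ℤˣ × ℤˣ, upperDensity {v : HeightOneSpectrum (𝓞 K) | ∃ σ, θ σ = q ∧ IsFrob v σ} = 1 / 4 := by
    intro q
    have h := dens_quot θ hθo hθs {q} (by
      rintro _ rfl t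
      rw [Set.mem_singleton_iff, mul_comm, inv_mul_cancel_left])
    have h4 : (Nat.card (ℤˣ × ℤˣ) : ℝ) = 4 := by
      rw [Nat.card_eq_fintype_card]
      norm_num [Fintype.card_prod]
    rw [Set.ncard_singleton, h4] at h
    simp only [Nat.cast_one, Set.mem_singleton_iff] at h
    exact h.limsup_eq
  -- the data
  let bad : Set (HeightOneSpectrum (𝓞 K)) := {v | ∃ σ, θ σ = (-1, -1) ∧ IsFrob v σ}
  let P : HeightOneSpectrum (𝓞 K) → ℚ[X] := fun v => if v ∈ bad then X - C (-1) else X - C 1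
  let D : ℕ → Set (HeightOneSpectrum (𝓞 K)) := fun m => if Even m then bad else {v | ∃ σ, θ σ = (-1, 1) ∧ IsFrob v σ}
  let ρ : (m : ℕ) → GK K →* GL (Fin 1) (ZQ ℓ m) := fun m => if Even m then 1 else (pm (ZQ ℓ m)).comp χ₁
  have hcoef : ∀ (m : ℕ) (v : HeightOneSpectrum (𝓞 K)) (ε : ℤˣ) (M : Matrix (Fin 1) (Fin 1) (ZQ ℓ m)),
      M.charpoly = X - C ((ε : ℤ) : ZQ ℓ m) → P v = X - C ((ε : ℤ) : ℚ) → ∀ j,
      ∃ h : ((P v).map (algebraMap ℚ (PadicAlgCl ℓ))).coeff j ∈ Zbar ℓ,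
        M.charpoly.coeff j = red ℓ m ⟨((P v).map (algebraMap ℚ (PadicAlgCl ℓ))).coeff j, h⟩ := by
    intro m v ε M hM hP j
    have e1 : ((P v).map (algebraMap ℚ (PadicAlgCl ℓ))) = (X - C ((ε : ℤ) : Zbar ℓ) : (Zbar ℓ)[X]).map (Zbar ℓ).subtype := by
      rw [hP]
      simp
    have e2 : ((P v).map (algebraMap ℚ (PadicAlgCl ℓ))).coeff j =
        (((X - C ((ε : ℤ) : Zbar ℓ) : (Zbar ℓ)[X]).coeff j : Zbar ℓ) : PadicAlgCl ℓ) := by
      rw [e1, Polynomial.coeff_map]
      rfl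
    refine ⟨by rw [e2]; exact ((X - C ((ε : ℤ) : Zbar ℓ) : (Zbar ℓ)[X]).coeff j).2, ?_⟩
    have e3 : M.charpoly = (X - C ((ε : ℤ) : Zbar ℓ) : (Zbar ℓ)[X]).map (red ℓ m) := by
      rw [hM]
      simp
    rw [e3, Polynomial.coeff_map]
    congr 1
    exact Subtype.ext e2.symm
  have hbadP : ∀ v ∈ bad, P v = X - C ((((-1 : ℤˣ) : ℤ)) : ℚ) := by
    intro v hv
    show (if v ∈ bad then X - C (-1) else X - C 1) = _
    rw [if_pos hv]
    simp
  have hgoodP : ∀ v, v ∉ bad → P v = X - C ((((1 : ℤˣ) : ℤ)) : ℚ) := by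
    intro v hv
    show (if v ∈ bad then X - C (-1) else X - C 1) = _
    rw [if_neg hv]
    simp
  refine ⟨S, P, ρ, D, H.fin, ?_, ?_, ?_, ?_, ?_⟩
  · intro m
    show IsOpen ((if Even m then (1 : GK K →* GL (Fin 1) (ZQ ℓ m)) else (pm (ZQ ℓ m)).comp χ₁).ker : Set (GK K))
    split_ifs
    · rw [MonoidHom.ker_one]
      exact isOpen_univ
    · refine Subgroup.isOpen_mono (H₁ := χ₁.ker) ?_ H.opn₁
      intro x hx
      rw [MonoidHom.mem_ker] at hx ⊢
      rw [MonoidHom.comp_apply, hx, map_one]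
  · intro m
    show upperDensity (if Even m then bad else {v | ∃ σ, θ σ = (-1, 1) ∧ IsFrob v σ}) = 1 / 4
    split_ifs
    · exact hdens _
    · exact hdens _
  · intro m v hv hvD
    by_cases hm : Even m
    · have e1 : ρ m = 1 := if_pos hm
      have e2 : D m = bad := if_pos hm
      rw [e2] at hvD
      refine ⟨fun τ _ => by rw [e1]; rfl, fun σ hσ j => ?_⟩
      refine hcoef m v 1 _ ?_ (hgoodP v hvD) j
      rw [e1]
      have := pm_charpoly (ZQ ℓ m) 1
      rw [map_one] at this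
      exact this
    · have e1 : ρ m = (pm (ZQ ℓ m)).comp χ₁ := if_neg hm
      have e2 : D m = {v | ∃ σ, θ σ = (-1, 1) ∧ IsFrob v σ} := if_neg hm
      rw [e2] at hvD
      refine ⟨fun τ hτ => ?_, fun σ hσ j => ?_⟩
      · rw [e1, MonoidHom.comp_apply, (hin v hv τ hτ).1, map_one]
      · refine hcoef m v (χ₁ σ) _ ?_ ?_ j
        · rw [e1]
          exact pm_charpoly (ZQ ℓ m) (χ₁ σ)
        · rcases Int.units_eq_one_or (χ₁ σ) with h1 | h1
          · rw [h1]
            refine hgoodP v ?_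
            rintro ⟨τ, hτ, hτ'⟩
            have h2 := (huniq v hv σ τ hσ hτ').1
            have h3 : χ₁ τ = -1 := congrArg Prod.fst hτ
            rw [h3, h1] at h2
            exact absurd h2 (by decide)
          · rw [h1]
            refine hbadP v ⟨σ, ?_, hσ⟩
            rcases Int.units_eq_one_or (χ₂ σ) with h2 | h2
            · exact absurd ⟨σ, Prod.ext h1 h2, hσ⟩ hvD
            · exact Prod.ext h1 h2
  · intro v hv
    by_cases hb : v ∈ bad
    · have hodd : ∀ m, ¬ Even m → v ∉ D m := by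
        intro m hm
        have e2 : D m = {v | ∃ σ, θ σ = (-1, 1) ∧ IsFrob v σ} := if_neg hm
        rw [e2]
        rintro ⟨σ, hσ, hσ'⟩
        obtain ⟨τ, hτ, hτ'⟩ := hb
        have h2 := (huniq v hv σ τ hσ' hτ').2
        have h3 : χ₂ τ = -1 := congrArg Prod.snd hτ
        have h4 : χ₂ σ = 1 := congrArg Prod.snd hσ
        rw [h3, h4] at h2
        exact absurd h2 (by decide)
      refine Set.infinite_of_injective_forall_mem (f := fun k : ℕ => 2 * k + 1) (fun a b h => ?_) (fun k => ?_)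
      · have h' : 2 * a + 1 = 2 * b + 1 := h
        omega
      · refine hodd _ ?_
        rw [Nat.not_even_iff_odd]
        exact ⟨k, rfl⟩
    · refine Set.infinite_of_injective_forall_mem (f := fun k : ℕ => 2 * k) (fun a b h => ?_) (fun k => ?_)
      · have h' : 2 * a = 2 * b := h
        omega
      · show v ∉ D (2 * k)
        have e2 : D (2 * k) = bad := if_pos (even_two_mul k)
        rw [e2]
        exact hb
  · rintro ⟨r, hr, hrP⟩
    have hval : ∀ v ∉ S, ∀ σ, IsFrob v σ → θ σ ≠ (-1, -1) → r σ = 1 := by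
      intro v hv σ hσ hθσ
      have hvb : v ∉ bad := by
        rintro ⟨τ, hτ, hτ'⟩
        apply hθσ
        obtain ⟨h1, h2⟩ := huniq v hv τ σ hτ' hσ
        rw [← hτ]
        exact Prod.ext h1 h2
      have h1 := hrP v hv σ hσ
      rw [hgoodP v hvb] at h1
      have h2 := charpoly_one (r σ : Matrix (Fin 1) (Fin 1) (PadicAlgCl ℓ)) 1 (by rw [h1]; simp)
      apply Units.ext
      rw [h2]
      ext i j
      rw [Subsingleton.elim i j]
      simp
    have hcl : ∀ g, θ g ≠ (-1, -1) → r g = 1 := by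
      intro g hg
      by_contra hne
      have hW : IsOpen ({x | r x ≠ 1} ∩ {x | θ x = θ g}) := by
        refine IsOpen.inter (isOpen_ne_fun hr continuous_const) ?_
        have : {x | θ x = θ g} = (fun x => g⁻¹ * x) ⁻¹' (θ.ker : Set (GK K)) := by
          ext x
          simp only [Set.mem_setOf_eq, Set.mem_preimage, SetLike.mem_coe, MonoidHom.mem_ker, map_mul, map_inv]
          rw [inv_mul_eq_one, eq_comm]
        rw [this]
        exact hθo.preimage (continuous_mul_left g⁻¹)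
      obtain ⟨v, hv, σ, hσ, h1, h2⟩ := exists_frob_open _ hW g ⟨hne, rfl⟩ S H.fin
      have h3 : θ σ⁻¹ = θ g := h2
      have hinv : ∀ q : ℤˣ × ℤˣ, q⁻¹ = q := by decide
      rw [map_inv, hinv] at h3
      apply h1
      rw [map_inv, hval v hv σ hσ (by rw [h3]; exact hg), inv_one]
    obtain ⟨g₁, h1, h1'⟩ := H.surj 1 (-1)
    have hall : ∀ g, r g = 1 := by
      intro g
      by_cases hg : θ g = (-1, -1)
      · have e : g = (g * g₁) * g₁⁻¹ := by group
        have h2 : θ (g * g₁) = (-1, 1) := by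
          rw [map_mul, hg]
          show ((-1 : ℤˣ) * χ₁ g₁, (-1 : ℤˣ) * χ₂ g₁) = _
          rw [h1, h1']
          rfl
        have h3 : θ g₁ = (1, -1) := Prod.ext h1 h1'
        rw [e, map_mul, map_inv, hcl _ (by rw [h2]; decide), hcl g₁ (by rw [h3]; decide), inv_one, mul_one]
      · exact hcl g hg
    obtain ⟨g₂, h2, h2'⟩ := H.surj (-1) (-1)
    have hW : IsOpen {x | θ x = (-1, -1)} := by
      have : {x | θ x = (-1, -1)} = (fun x => g₂⁻¹ * x) ⁻¹' (θ.ker : Set (GK K)) := by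
        ext x
        simp only [Set.mem_setOf_eq, Set.mem_preimage, SetLike.mem_coe, MonoidHom.mem_ker, map_mul, map_inv]
        have e : θ g₂ = (-1, -1) := Prod.ext h2 h2'
        rw [e, inv_mul_eq_one, eq_comm]
      rw [this]
      exact hθo.preimage (continuous_mul_left g₂⁻¹)
    obtain ⟨v, hv, σ, hσ, h3⟩ := exists_frob_open _ hW g₂ (Prod.ext h2 h2') S H.fin
    have hinv : ∀ q : ℤˣ × ℤˣ, q⁻¹ = q := by decide
    have h3' : θ σ = (-1, -1) := by
      have : θ σ⁻¹ = (-1, -1) := h3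
      rwa [map_inv, hinv] at this
    have h4 := hrP v hv σ hσ
    rw [hbadP v ⟨σ, h3', hσ⟩, hall σ] at h4
    have h5 := charpoly_one ((1 : GL (Fin 1) (PadicAlgCl ℓ)) : Matrix (Fin 1) (Fin 1) (PadicAlgCl ℓ)) (-1)
      (by rw [h4]; simp)
    have h6 := congrFun (congrFun h5 0) 0
    simp at h6
    have h7 : (2 : PadicAlgCl ℓ) = 0 := by linear_combination h6
    exact two_ne_zero h7

end Pool.Agent.H498.BG
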